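import Pool.Agent.Lib_helper61.PMN.Spec

/-!
# Power means at `q = 1` and `q = ∞`: eigenvectors of the matrices (MP_9bce2c_an)
-/

open Matrix Filter Topology
open scoped ENNReal BigOperators ComplexOrder

namespace Pool.Agent.Lib_helper61.PMN
open Pool.Agent.Lib_helper41.PM

lemma normSq_real_mul (a : ℝ) (z : ℂ) : Complex.normSq ((a : ℂ) * z) = a ^ 2 * Complex.normSq z := by
  rw [Complex.normSq_mul, Complex.normSq_ofReal]
  ring

/-- Parseval for the vector `c` -/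
lemma sum_ss (x : ℝ) (V : unitaryGroup (Fin 3) ℂ) :
    ∑ k, Complex.normSq (ss x (fun i => (V : Mat 3) i k)) = 2 + x ^ 2 := by
  have hU : ∀ i j, (V : Mat 3) i 0 * star ((V : Mat 3) j 0) + (V : Mat 3) i 1 * star ((V : Mat 3) j 1)
      + (V : Mat 3) i 2 * star ((V : Mat 3) j 2) = (1 : Mat 3) i j := by
    intro i j
    have := congrFun (congrFun (unitary_mul_star V) i) j
    rw [mul_apply, Fin.sum_univ_three] at this
    simpa only [star_apply] using this
  have h00 := hU 0 0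
  have h01 := hU 0 1
  have h02 := hU 0 2
  have h10 := hU 1 0
  have h11 := hU 1 1
  have h12 := hU 1 2
  have h20 := hU 2 0
  have h21 := hU 2 1
  have h22 := hU 2 2
  simp at h00 h01 h02 h10 h11 h12 h20 h21 h22
  have h : ((∑ k, Complex.normSq (ss x (fun i => (V : Mat 3) i k)) : ℝ) : ℂ) =
      ((2 + x ^ 2 : ℝ) : ℂ) := by
    rw [Fin.sum_univ_three]
    push_cast
    rw [← Complex.mul_conj, ← Complex.mul_conj, ← Complex.mul_conj]
    unfold ss
    simp only [map_add, map_sub, map_mul, Complex.conj_ofReal]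
    linear_combination (x : ℂ) ^ 2 * h00 + (x : ℂ) * h01 - (x : ℂ) * h02 + (x : ℂ) * h10 + h11 -
      h12 - (x : ℂ) * h20 - h21 + h22
  exact_mod_cast h

lemma low_col {b x : ℝ} (hb : b * (2 + (1 - x) ^ 2) < 2 + x ^ 2) (hx : (1 - x) ^ 2 ≤ 1)
    {u : Fin 3 → ℂ} {L r : ℝ} (hr : 0 < r) (hL : 0 ≤ L)
    (e0 : (L : ℂ) * u 0 = b * tt x u + x * ss x u)
    (e1 : (L : ℂ) * u 1 = ss x u - b * tt x u)
    (e2 : (L : ℂ) * u 2 = b * (x - 1) * tt x u - ss x u) :
    (2 + x ^ 2) ^ (r - 2) * x ^ 2 * Complex.normSq (ss x u) ≤ L ^ r * Complex.normSq (u 0) ∧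
    (2 + x ^ 2) ^ (r - 2) * x ^ 2 * Complex.normSq (ss x u) ≤
      L ^ r * (Complex.normSq (u 0) + Complex.normSq (u 1) - Complex.normSq (u 2)) := by
  have hΛ : 0 < 2 + x ^ 2 := by positivity
  have E1 : ((L : ℂ) - (2 + x ^ 2)) * ss x u = 0 := by
    have : ss x u = x * u 0 + u 1 - u 2 := rfl
    linear_combination (L : ℂ) * this + (x : ℂ) * e0 + e1 - e2
  have E2 : ((L : ℂ) - b * (2 + (1 - x) ^ 2)) * tt x u = 0 := by
    have : tt x u = u 0 - u 1 + ((x : ℂ) - 1) * u 2 := rfl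
    linear_combination (L : ℂ) * this + e0 - e1 + ((x : ℂ) - 1) * e2
  rcases eq_or_ne (ss x u) 0 with hs | hs
  · have n0 := Complex.normSq_nonneg (u 0)
    rw [hs, map_zero, mul_zero]
    refine ⟨by positivity, ?_⟩
    rcases eq_or_lt_of_le hL with h0 | h0
    · rw [← h0, Real.zero_rpow hr.ne', zero_mul]
    · refine mul_nonneg (Real.rpow_nonneg hL r) ?_
      rw [hs] at e0 e1 e2
      have f0 := congrArg Complex.normSq e0
      have f1 := congrArg Complex.normSq e1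
      have f2 := congrArg Complex.normSq e2
      have g0 : (b : ℂ) * tt x u + x * 0 = ((b : ℝ) : ℂ) * tt x u := by ring
      have g1 : 0 - (b : ℂ) * tt x u = ((-b : ℝ) : ℂ) * tt x u := by push_cast; ring
      have g2 : (b : ℂ) * (x - 1) * tt x u - 0 = ((b * (x - 1) : ℝ) : ℂ) * tt x u := by
        push_cast; ring
      rw [g0, normSq_real_mul, normSq_real_mul] at f0
      rw [g1, normSq_real_mul, normSq_real_mul] at f1
      rw [g2, normSq_real_mul, normSq_real_mul] at f2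
      have hn := Complex.normSq_nonneg (tt x u)
      have h3 : L ^ 2 * (Complex.normSq (u 0) + Complex.normSq (u 1) - Complex.normSq (u 2)) =
          b ^ 2 * Complex.normSq (tt x u) * (2 - (1 - x) ^ 2) := by
        linear_combination f0 + f1 - f2
      have h4 : 0 ≤ L ^ 2 * (Complex.normSq (u 0) + Complex.normSq (u 1) -
          Complex.normSq (u 2)) := by
        rw [h3]
        exact mul_nonneg (by positivity) (by linarith)
      exact nonneg_of_mul_nonneg_right h4 (by positivity)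
  · have hLΛ : L = 2 + x ^ 2 := by
      have := (mul_eq_zero.mp E1).resolve_right hs
      have h2 : ((L - (2 + x ^ 2) : ℝ) : ℂ) = 0 := by
        push_cast
        exact this
      have h3 : L - (2 + x ^ 2) = 0 := by exact_mod_cast h2
      linarith
    have ht : tt x u = 0 := by
      refine (mul_eq_zero.mp E2).resolve_left ?_
      intro h
      have h2 : ((L - b * (2 + (1 - x) ^ 2) : ℝ) : ℂ) = 0 := by
        push_cast
        exact h
      have h3 : L - b * (2 + (1 - x) ^ 2) = 0 := by exact_mod_cast h2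
      linarith
    rw [ht] at e0 e1 e2
    have f0 := congrArg Complex.normSq e0
    have f1 := congrArg Complex.normSq e1
    have f2 := congrArg Complex.normSq e2
    have g0 : (b : ℂ) * 0 + x * ss x u = ((x : ℝ) : ℂ) * ss x u := by ring
    have g1 : ss x u - (b : ℂ) * 0 = ((1 : ℝ) : ℂ) * ss x u := by push_cast; ring
    have g2 : (b : ℂ) * (x - 1) * 0 - ss x u = ((-1 : ℝ) : ℂ) * ss x u := by
      push_cast; ring
    rw [g0, normSq_real_mul, normSq_real_mul] at f0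
    rw [g1, normSq_real_mul, normSq_real_mul] at f1
    rw [g2, normSq_real_mul, normSq_real_mul] at f2
    have hpow : L ^ r = (2 + x ^ 2) ^ (r - 2) * L ^ 2 := by
      rw [hLΛ, Real.rpow_sub hΛ]
      have : (2 + x ^ 2 : ℝ) ^ (2 : ℝ) = (2 + x ^ 2) ^ 2 := by norm_num
      rw [this]
      field_simp
    constructor
    · apply le_of_eq
      rw [hpow]
      linear_combination -(2 + x ^ 2) ^ (r - 2) * f0
    · apply le_of_eq
      rw [hpow]
      linear_combination -(2 + x ^ 2) ^ (r - 2) * (f0 + f1 - f2)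

theorem low_sum {b x r : ℝ} (hb0 : 0 ≤ b) (hb : b * (2 + (1 - x) ^ 2) < 2 + x ^ 2)
    (hx : (1 - x) ^ 2 ≤ 1) (hr : 0 < r) {V : unitaryGroup (Fin 3) ℂ} {a : Fin 3 → ℝ}
    (h : mA b x = cj V (fun i => (a i : ℂ))) :
    (2 + x ^ 2) ^ (r - 1) * x ^ 2 ≤ ∑ k, a k ^ r * Complex.normSq ((V : Mat 3) 0 k) ∧
    (2 + x ^ 2) ^ (r - 1) * x ^ 2 ≤ ∑ k, a k ^ r * sw V k := by
  have hΛ : 0 < 2 + x ^ 2 := by positivity
  have ha : ∀ k, 0 ≤ a k := fun k => eig_nonneg (h ▸ mA_psd hb0) k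
  have hcol : ∀ k, (2 + x ^ 2) ^ (r - 2) * x ^ 2 *
      Complex.normSq (ss x (fun i => (V : Mat 3) i k)) ≤
        a k ^ r * Complex.normSq ((V : Mat 3) 0 k) ∧
      (2 + x ^ 2) ^ (r - 2) * x ^ 2 * Complex.normSq (ss x (fun i => (V : Mat 3) i k)) ≤
        a k ^ r * sw V k := by
    intro k
    have h' : mA b x + (0 : ℝ) • dk 0 = cj V (fun i => (a i : ℂ)) := by
      rw [zero_smul, add_zero, h]
    obtain ⟨e0, e1, e2⟩ := eqs h' k _ rfl
    simp only [Complex.ofReal_zero, sub_zero, zero_mul] at e0 e1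
    exact low_col hb hx hr (ha k) e0 e1 e2
  have hsum : (2 + x ^ 2) ^ (r - 1) * x ^ 2 = ∑ k, (2 + x ^ 2) ^ (r - 2) * x ^ 2 *
      Complex.normSq (ss x (fun i => (V : Mat 3) i k)) := by
    rw [← Finset.mul_sum, sum_ss]
    have : (2 + x ^ 2 : ℝ) ^ (r - 1) = (2 + x ^ 2) ^ (r - 2) * (2 + x ^ 2) := by
      have e : r - 1 = (r - 2) + 1 := by ring
      rw [e, Real.rpow_add_one hΛ.ne']
    rw [this]
    ring
  rw [hsum]
  exact ⟨Finset.sum_le_sum fun k _ => (hcol k).1, Finset.sum_le_sum fun k _ => (hcol k).2⟩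

/-- an eigenvector is a multiple of an explicit real vector -/
theorem col_data {b x θ κ L i0 i1 i2 : ℝ} {u : Fin 3 → ℂ}
    (hn : Complex.normSq (u 0) + Complex.normSq (u 1) + Complex.normSq (u 2) = 1)
    (e0 : ((L : ℂ) - θ) * u 0 = b * tt x u + x * ss x u)
    (e1 : ((L : ℂ) - θ * κ) * u 1 = ss x u - b * tt x u)
    (e2 : (L : ℂ) * u 2 = b * (x - 1) * tt x u - ss x u)
    (h0 : i0 * (L - θ) = 1) (h1 : i1 * (L - θ * κ) = 1) (h2 : i2 * L = 1)
    {P Q : ℝ} (hP : P = 1 - b * i0 - b * i1 - b * (1 - x) ^ 2 * i2)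
    (hQ : Q = x * i0 - i1 + (1 - x) * i2) (hP0 : P ≠ 0) :
    ∃ τ w0 w1 w2 S : ℝ, 0 < S ∧ τ = Q / P ∧ w0 = i0 * (b * τ + x) ∧ w1 = i1 * (1 - b * τ) ∧
      w2 = i2 * (b * (x - 1) * τ - 1) ∧ Complex.normSq (u 0) = w0 ^ 2 * S ∧
      Complex.normSq (u 1) = w1 ^ 2 * S ∧ Complex.normSq (u 2) = w2 ^ 2 * S ∧
      (w0 ^ 2 + w1 ^ 2 + w2 ^ 2) * S = 1 ∧ τ = w0 - w1 + (x - 1) * w2 ∧
      1 = x * w0 + w1 - w2 := by
  have h0c : (i0 : ℂ) * ((L : ℂ) - θ) = 1 := by exact_mod_cast h0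
  have h1c : (i1 : ℂ) * ((L : ℂ) - θ * κ) = 1 := by exact_mod_cast h1
  have h2c : (i2 : ℂ) * (L : ℂ) = 1 := by exact_mod_cast h2
  have u0 : u 0 = i0 * (b * tt x u + x * ss x u) := by
    linear_combination (i0 : ℂ) * e0 - u 0 * h0c
  have u1 : u 1 = i1 * (ss x u - b * tt x u) := by
    linear_combination (i1 : ℂ) * e1 - u 1 * h1c
  have u2 : u 2 = i2 * (b * (x - 1) * tt x u - ss x u) := by
    linear_combination (i2 : ℂ) * e2 - u 2 * h2c
  have ht : tt x u = u 0 - u 1 + ((x : ℂ) - 1) * u 2 := rfl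
  have hs : ss x u = x * u 0 + u 1 - u 2 := rfl
  generalize tt x u = t at u0 u1 u2 ht hs
  generalize ss x u = s at u0 u1 u2 ht hs
  have hPc : (P : ℂ) = 1 - b * i0 - b * i1 - b * (1 - x) ^ 2 * i2 := by rw [hP]; push_cast; ring
  have hQc : (Q : ℂ) = x * i0 - i1 + (1 - x) * i2 := by rw [hQ]; push_cast; ring
  have hPc0 : (P : ℂ) ≠ 0 := by exact_mod_cast hP0
  have hPQ : t * P = s * Q := by
    rw [hPc, hQc]
    linear_combination ht + u0 - u1 + ((x : ℂ) - 1) * u2
  obtain ⟨τ, hτ⟩ : ∃ τ : ℝ, τ = Q / P := ⟨_, rfl⟩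
  have hτP : τ * P = Q := by rw [hτ]; field_simp
  have hτPc : (τ : ℂ) * P = Q := by exact_mod_cast hτP
  have hts : t = τ * s := by
    apply mul_right_cancel₀ hPc0
    linear_combination hPQ - s * hτPc
  have v0 : u 0 = ((i0 * (b * τ + x) : ℝ) : ℂ) * s := by
    rw [u0, hts]; push_cast; ring
  have v1 : u 1 = ((i1 * (1 - b * τ) : ℝ) : ℂ) * s := by
    rw [u1, hts]; push_cast; ring
  have v2 : u 2 = ((i2 * (b * (x - 1) * τ - 1) : ℝ) : ℂ) * s := by
    rw [u2, hts]; push_cast; ring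
  have n0 := congrArg Complex.normSq v0
  have n1 := congrArg Complex.normSq v1
  have n2 := congrArg Complex.normSq v2
  rw [normSq_real_mul] at n0 n1 n2
  rw [n0, n1, n2] at hn
  have hS : 0 < Complex.normSq s := by
    rcases eq_or_lt_of_le (Complex.normSq_nonneg s) with h | h
    · rw [← h] at hn
      norm_num at hn
    · exact h
  have hs0 : s ≠ 0 := Complex.normSq_pos.mp hS
  refine ⟨τ, _, _, _, Complex.normSq s, hS, hτ, rfl, rfl, rfl, n0, n1, n2, ?_, ?_, ?_⟩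
  · linear_combination hn
  · have : τ * P = Q := hτP
    rw [hP, hQ] at this
    linear_combination this
  · have h3 : (1 : ℂ) * s = ((x * (i0 * (b * τ + x)) + i1 * (1 - b * τ) -
        i2 * (b * (x - 1) * τ - 1) : ℝ) : ℂ) * s := by
      push_cast
      push_cast at v0 v1 v2
      linear_combination hs + (x : ℂ) * v0 + v1 - v2
    have h4 := mul_right_cancel₀ hs0 h3
    exact_mod_cast h4

end Pool.Agent.Lib_helper61.PMN
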