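import Pool.Agent.Lib_helper61.PMN.Col

/-!
# Power means: failure of monotonicity at `q = ∞` for `0 < p < 1/3` (MP_9bce2c_an)
-/

open Matrix Filter Topology
open scoped ENNReal BigOperators ComplexOrder

namespace Pool.Agent.Lib_helper61.PMN
open Pool.Agent.Lib_helper41.PM

lemma spec_C {b x κ : ℝ} (hb : 0 < b) (hx0 : 0 ≤ x) (hx1 : x ≤ 1) (hκ0 : 0 ≤ κ)
    (hκ1 : κ ≤ 1 / 2) {U : unitaryGroup (Fin 3) ℂ} {d : Fin 3 → ℝ}
    (h : mA b x + b • dk κ = cj U (fun i => (d i : ℂ))) :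
    (∀ j, 0 ≤ d j) ∧ ∃ k, 2 + x ^ 2 ≤ d k ∧ d k ≤ 2 + x ^ 2 + 5 * b ∧
      ∀ j, j ≠ k → d j ≤ 5 * b := by
  have hd : ∀ j, 0 ≤ d j := fun j =>
    eig_nonneg (h ▸ (mA_psd hb.le).add (psd_smul (dk_psd hκ0) hb.le)) j
  refine ⟨hd, ?_⟩
  obtain ⟨k, hk⟩ := exists_top hb.le hκ0 h
  have htr := sum_eig U d
  rw [← h, mA_trace, Fin.sum_univ_three] at htr
  have hx2 : (1 - x) ^ 2 ≤ 1 := by
    have h := pow_le_pow_left₀ (by linarith : 0 ≤ 1 - x) (by linarith : 1 - x ≤ 1) 2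
    rwa [one_pow] at h
  have hup : d 0 + d 1 + d 2 ≤ 2 + x ^ 2 + 5 * b := by
    rw [htr]
    have h1 := mul_le_mul_of_nonneg_left hx2 hb.le
    have h2 := mul_le_mul_of_nonneg_left hκ1 hb.le
    linarith
  have h0 := hd 0
  have h1 := hd 1
  have h2 := hd 2
  refine ⟨k, hk, ?_, ?_⟩
  · fin_cases k <;> simp at hk ⊢ <;> linarith
  · intro j hj
    fin_cases k <;> fin_cases j <;> simp at hk hj ⊢ <;> linarith

lemma sum_split {r : ℝ} (hr : 0 ≤ r) {d w v : Fin 3 → ℝ} {k : Fin 3} {T W B : ℝ}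
    (hd : ∀ j, 0 ≤ d j) (hB : ∀ j, j ≠ k → d j ≤ B) (hwv : ∀ j, w j ≤ v j)
    (hv : ∀ j, 0 ≤ v j) (hW : ∑ j, v j ≤ W) (hB0 : 0 ≤ B) (hT : d k ^ r * w k ≤ T) :
    ∑ j, d j ^ r * w j ≤ T + B ^ r * W := by
  have hBr : 0 ≤ B ^ r := Real.rpow_nonneg hB0 r
  rw [← Finset.add_sum_erase Finset.univ _ (Finset.mem_univ k)]
  refine add_le_add hT ?_
  calc ∑ j ∈ Finset.univ.erase k, d j ^ r * w j
      ≤ ∑ j ∈ Finset.univ.erase k, B ^ r * v j := by
        refine Finset.sum_le_sum fun j hj => ?_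
        have hjk := Finset.ne_of_mem_erase hj
        have h1 : d j ^ r ≤ B ^ r := Real.rpow_le_rpow (hd j) (hB j hjk) hr
        have h2 : 0 ≤ d j ^ r := Real.rpow_nonneg (hd j) r
        calc d j ^ r * w j ≤ d j ^ r * v j := mul_le_mul_of_nonneg_left (hwv j) h2
          _ ≤ B ^ r * v j := mul_le_mul_of_nonneg_right h1 (hv j)
    _ ≤ ∑ j, B ^ r * v j :=
        Finset.sum_le_sum_of_subset_of_nonneg (Finset.erase_subset _ _)
          fun j _ _ => mul_nonneg hBr (hv j)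
    _ = B ^ r * ∑ j, v j := by rw [Finset.mul_sum]
    _ ≤ B ^ r * W := mul_le_mul_of_nonneg_left hW hBr

lemma exists_small {r c e : ℝ} (hr : 3 < r) (hc : 0 < c) (he : 0 < e) :
    ∃ b : ℝ, 0 < b ∧ b ≤ e ∧ (5 * b) ^ r ≤ c * b ^ 3 := by
  have h5 : (0 : ℝ) < 5 ^ r := Real.rpow_pos_of_pos (by norm_num) r
  have hr3 : 0 < r - 3 := by linarith
  have hδ : 0 < (c / 5 ^ r) ^ (1 / (r - 3)) := Real.rpow_pos_of_pos (by positivity) _
  have hb : 0 < min e ((c / 5 ^ r) ^ (1 / (r - 3))) := lt_min he hδ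
  refine ⟨min e ((c / 5 ^ r) ^ (1 / (r - 3))), hb, min_le_left _ _, ?_⟩
  generalize hbe : min e ((c / 5 ^ r) ^ (1 / (r - 3))) = b at hb ⊢
  have hb2 : b ≤ (c / 5 ^ r) ^ (1 / (r - 3)) := by rw [← hbe]; exact min_le_right _ _
  have h1 : b ^ (r - 3) ≤ c / 5 ^ r := by
    calc b ^ (r - 3) ≤ ((c / 5 ^ r) ^ (1 / (r - 3))) ^ (r - 3) :=
          Real.rpow_le_rpow hb.le hb2 hr3.le
      _ = c / 5 ^ r := by
          rw [← Real.rpow_mul (by positivity)]
          have : 1 / (r - 3) * (r - 3) = 1 := by field_simp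
          rw [this, Real.rpow_one]
  have h2 : b ^ r = b ^ (r - 3) * b ^ 3 := by
    have e1 : r = (r - 3) + ((3 : ℕ) : ℝ) := by push_cast; ring
    conv_lhs => rw [e1]
    rw [Real.rpow_add hb, Real.rpow_natCast]
  rw [Real.mul_rpow (by norm_num) hb.le, h2]
  calc 5 ^ r * (b ^ (r - 3) * b ^ 3) ≤ 5 ^ r * (c / 5 ^ r * b ^ 3) := by gcongr
    _ = c * b ^ 3 := by field_simp

lemma col_real {b x θ κ L i0 i1 i2 τ w0 w1 w2 S : ℝ}
    (h0 : i0 * (L - θ) = 1) (h1 : i1 * (L - θ * κ) = 1) (h2 : i2 * L = 1)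
    (e0 : w0 = i0 * (b * τ + x)) (e1 : w1 = i1 * (1 - b * τ))
    (e2 : w2 = i2 * (b * (x - 1) * τ - 1)) (hn : (w0 ^ 2 + w1 ^ 2 + w2 ^ 2) * S = 1)
    (ht : τ = w0 - w1 + (x - 1) * w2) (hs : 1 = x * w0 + w1 - w2) :
    L = S * (1 + b * τ ^ 2 + θ * w0 ^ 2 + θ * κ * w1 ^ 2) ∧
    L - (2 + x ^ 2) = θ * (x * w0 + κ * w1) := by
  have f0 : (L - θ) * w0 = b * τ + x := by
    rw [e0]
    linear_combination (b * τ + x) * h0
  have f1 : (L - θ * κ) * w1 = 1 - b * τ := by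
    rw [e1]
    linear_combination (1 - b * τ) * h1
  have f2 : L * w2 = b * (x - 1) * τ - 1 := by
    rw [e2]
    linear_combination (b * (x - 1) * τ - 1) * h2
  constructor
  · linear_combination -L * hn + S * (w0 * f0 + w1 * f1 + w2 * f2) - S * b * τ * ht - S * hs
  · linear_combination x * f0 + f1 - f2 + L * hs

/-- bounds at `κ = 1/2` -/
lemma inf_bounds {b r x L i0 i1 i2 : ℝ} (hb : 0 < b) (hb1 : b ≤ 1 / 100) (hr : 3 < r)
    (hbr : 10 * (r * b) ≤ 1) (hx : x * (40 * r) = b) (hL0 : 2 + x ^ 2 ≤ L)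
    (hL1 : L ≤ 2 + x ^ 2 + 5 * b)
    (h0 : i0 * (L - b) = 1) (h1 : i1 * (L - b * (1 / 2)) = 1) (h2 : i2 * L = 1) :
    0 < x ∧ x ≤ b / 120 ∧ 1 - b * i0 - b * i1 - b * (1 - x) ^ 2 * i2 ≤ 1 ∧
    98 / 100 ≤ 1 - b * i0 - b * i1 - b * (1 - x) ^ 2 * i2 ∧
    x * i0 - i1 + (1 - x) * i2 ≤ -(b / 10) ∧ -(b / 100 * 13) ≤ x * i0 - i1 + (1 - x) * i2 ∧
    b ^ 2 / 4 ≤ x ∧ 0 < i0 ∧ i0 ≤ 1 := by
  have hr0 : 0 < 40 * r := by linarith
  have hx0 : 0 < x := by
    have e : x = b / (40 * r) := by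
      rw [eq_div_iff hr0.ne']
      exact hx
    rw [e]
    positivity
  have hx1 : x ≤ b / 120 := by
    have h := mul_le_mul_of_nonneg_left (by linarith : 120 ≤ 40 * r) hx0.le
    linarith
  have hxx : x ^ 2 ≤ 1 / 1000 := by
    have h := pow_le_pow_left₀ hx0.le (by linarith : x ≤ 1 / 100) 2
    norm_num at h
    linarith
  have hL2 : 2 ≤ L := by linarith [sq_nonneg x]
  have hL3 : L ≤ 206 / 100 := by linarith
  have p0 : 0 < L - b := by linarith
  have p1 : 0 < L - b * (1 / 2) := by linarith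
  have p2 : 0 < L := by linarith
  have j0 : 0 < i0 := by
    rw [eq_inv_of_mul_eq_one_left h0]
    exact inv_pos.2 p0
  have j1 : 0 < i1 := by
    rw [eq_inv_of_mul_eq_one_left h1]
    exact inv_pos.2 p1
  have j2 : 0 < i2 := by
    rw [eq_inv_of_mul_eq_one_left h2]
    exact inv_pos.2 p2
  have k0 : i0 ≤ 503 / 1000 := by
    have h := mul_le_mul_of_nonneg_left (by linarith : 199 / 100 ≤ L - b) j0.le
    linarith
  have k1 : i1 ≤ 502 / 1000 := by
    have h := mul_le_mul_of_nonneg_left (by linarith : 1995 / 1000 ≤ L - b * (1 / 2)) j1.le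
    linarith
  have k2 : i2 ≤ 1 / 2 := by
    have h := mul_le_mul_of_nonneg_left hL2 j2.le
    linarith
  have l1 : 485 / 1000 ≤ i1 := by
    have h := mul_le_mul_of_nonneg_left (by linarith : L - b * (1 / 2) ≤ 206 / 100) j1.le
    linarith
  have l2 : 485 / 1000 ≤ i2 := by
    have h := mul_le_mul_of_nonneg_left hL3 j2.le
    linarith
  have q1 : (1 - x) ^ 2 ≤ 1 := by
    have h := pow_le_pow_left₀ (by linarith : 0 ≤ 1 - x) (by linarith : 1 - x ≤ 1) 2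
    rwa [one_pow] at h
  have q2 : 0 ≤ (1 - x) ^ 2 := sq_nonneg _
  have d1 : i0 - i2 = b * i0 * i2 := by
    linear_combination i2 * h0 - i0 * h2
  have d2 : i1 - i2 = b * (1 / 2) * i1 * i2 := by
    linear_combination i2 * h1 - i1 * h2
  have hQ : x * i0 - i1 + (1 - x) * i2 = x * (b * i0 * i2) - b * (1 / 2) * i1 * i2 := by
    linear_combination x * d1 - d2
  have m1 : 0 < i0 * i2 := mul_pos j0 j2
  have m2 : i0 * i2 ≤ 26 / 100 := by
    have h := mul_le_mul k0 k2 j2.le (by norm_num)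
    norm_num at h
    linarith
  have m3 : 235 / 1000 ≤ i1 * i2 := by
    have h := mul_le_mul l1 l2 (by norm_num) j1.le
    norm_num at h
    linarith
  have m4 : i1 * i2 ≤ 251 / 1000 := by
    have h := mul_le_mul k1 k2 j2.le (by norm_num)
    norm_num at h
    linarith
  have m5 : b * (1 - x) ^ 2 * i2 ≤ b * i2 := by
    have : b * i2 * (1 - x) ^ 2 ≤ b * i2 * 1 := mul_le_mul_of_nonneg_left q1 (by positivity)
    linarith
  have m6 : 0 ≤ b * (1 - x) ^ 2 * i2 := by positivity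
  have m7 : 0 < b * i0 := by positivity
  have m8 : 0 < b * i1 := by positivity
  have n0 : b * i0 ≤ 503 / 100000 := by
    have h := mul_le_mul hb1 k0 j0.le (by norm_num)
    norm_num at h
    linarith
  have n1 : b * i1 ≤ 502 / 100000 := by
    have h := mul_le_mul hb1 k1 j1.le (by norm_num)
    norm_num at h
    linarith
  have n2 : b * i2 ≤ 1 / 200 := by
    have h := mul_le_mul hb1 k2 j2.le (by norm_num)
    norm_num at h
    linarith
  refine ⟨hx0, hx1, by linarith, by linarith, ?_, ?_, ?_, j0, by linarith⟩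
  · rw [hQ]
    have a1 : x * (b * i0 * i2) ≤ x * (b * (26 / 100)) := by
      have : b * i0 * i2 = b * (i0 * i2) := by ring
      rw [this]
      gcongr
    have a2 : b * (1 / 2) * (235 / 1000) ≤ b * (1 / 2) * i1 * i2 := by
      have : b * (1 / 2) * i1 * i2 = b * (1 / 2) * (i1 * i2) := by ring
      rw [this]
      gcongr
    have a3 : x * b ≤ 1 / 100 * b := mul_le_mul_of_nonneg_right (by linarith) hb.le
    linarith
  · rw [hQ]
    have a1 : 0 ≤ x * (b * i0 * i2) := by positivity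
    have a2 : b * (1 / 2) * i1 * i2 ≤ b * (1 / 2) * (251 / 1000) := by
      have : b * (1 / 2) * i1 * i2 = b * (1 / 2) * (i1 * i2) := by ring
      rw [this]
      gcongr
    linarith
  · have e : b ^ 2 / 4 = 10 * (r * b) * x := by linear_combination (-(b / 4)) * hx
    rw [e]
    have h := mul_le_mul_of_nonneg_right hbr hx0.le
    linarith

lemma top_inf {b r x L i0 τ w0 S P Q : ℝ} (hb : 0 < b) (hb1 : b ≤ 1 / 100) (hr : 3 < r)
    (hbr : 10 * (r * b) ≤ 1) (hx : x * (40 * r) = b) (hL0 : 2 + x ^ 2 ≤ L)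
    (hL1 : L ≤ 2 + x ^ 2 + 5 * b) (hx0 : 0 < x) (hP1 : P ≤ 1) (hP2 : 98 / 100 ≤ P)
    (hQ1 : Q ≤ -(b / 10)) (hQ2 : -(b / 100 * 13) ≤ Q) (hxb : b ^ 2 / 4 ≤ x) (hi0 : 0 < i0)
    (hi1 : i0 ≤ 1) (hiL : i0 * (L - b) = 1) (hτ : τ * P = Q) (hw0 : w0 = i0 * (b * τ + x))
    (hS0 : 0 ≤ S) (hSL : S ≤ L) :
    L ^ r * (w0 ^ 2 * S) ≤ (2 + x ^ 2) ^ (r - 1) * x ^ 2 * (1 - b) := by
  have hΛ : 0 < 2 + x ^ 2 := by positivity
  have hL : 0 < L := by linarith
  have hPp : 0 < P := by linarith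
  have eτ : τ = Q / P := by
    rw [eq_div_iff hPp.ne']
    exact hτ
  have t1 : τ ≤ -(b / 10) := by
    rw [eτ, div_le_iff₀ hPp]
    have h := mul_le_mul_of_nonneg_left hP1 (by positivity : 0 ≤ b / 10)
    linarith
  have t2 : -(b / 7) ≤ τ := by
    rw [eτ, le_div_iff₀ hPp]
    have h := mul_le_mul_of_nonneg_left hP2 (by positivity : 0 ≤ b / 7)
    linarith
  have y1 : 0 ≤ b * τ + x := by
    have h := mul_le_mul_of_nonneg_left t2 hb.le
    have e : b * -(b / 7) = -(1 / 7 * b ^ 2) := by ring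
    rw [e] at h
    linarith [sq_nonneg b]
  have y2 : b * τ + x ≤ x * (1 - 2 * r * b) := by
    have h := mul_le_mul_of_nonneg_left t1 hb.le
    have e : b * -(b / 10) = -(1 / 10 * b ^ 2) := by ring
    have e2 : x * (1 - 2 * r * b) = x - b ^ 2 / 20 := by linear_combination (-(b / 20)) * hx
    rw [e] at h
    rw [e2]
    linarith [sq_nonneg b]
  have w1 : 0 ≤ w0 := by rw [hw0]; positivity
  have hLi : L * i0 = 1 + b * i0 := by linear_combination hiL
  have e1 : L * i0 ≤ Real.exp b := by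
    have h1 := Real.add_one_le_exp b
    have h2 := mul_le_mul_of_nonneg_left hi1 hb.le
    linarith
  have e2 : 1 - 2 * r * b ≤ Real.exp (-(2 * r * b)) := by
    have := Real.add_one_le_exp (-(2 * r * b))
    linarith
  have w2 : L * w0 ≤ x * Real.exp (b - 2 * r * b) := by
    have : Real.exp (b - 2 * r * b) = Real.exp b * Real.exp (-(2 * r * b)) := by
      rw [← Real.exp_add]
      ring_nf
    rw [this, hw0]
    calc L * (i0 * (b * τ + x)) = (L * i0) * (b * τ + x) := by ring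
      _ ≤ Real.exp b * (x * (1 - 2 * r * b)) :=
          mul_le_mul e1 y2 y1 (Real.exp_pos b).le
      _ ≤ Real.exp b * (x * Real.exp (-(2 * r * b))) := by
          have := Real.exp_pos b
          gcongr
      _ = x * (Real.exp b * Real.exp (-(2 * r * b))) := by ring
  have w3 : (L * w0) ^ 2 ≤ x ^ 2 * Real.exp (2 * b - 4 * r * b) := by
    have h2 : Real.exp (2 * b - 4 * r * b) = Real.exp (b - 2 * r * b) ^ 2 := by
      rw [sq, ← Real.exp_add]
      ring_nf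
    rw [h2, ← mul_pow]
    exact pow_le_pow_left₀ (by positivity) w2 2
  have l1 : L ≤ (2 + x ^ 2) * Real.exp (5 / 2 * b) := by
    have h1 := Real.add_one_le_exp (5 / 2 * b)
    have h2 : (2 + x ^ 2) * (5 / 2 * b + 1) ≤ (2 + x ^ 2) * Real.exp (5 / 2 * b) :=
      mul_le_mul_of_nonneg_left h1 hΛ.le
    have h3 : (2 + x ^ 2) * (5 / 2 * b + 1) = 2 + x ^ 2 + 5 * b + 5 / 2 * (b * x ^ 2) := by ring
    have h4 : 0 ≤ b * x ^ 2 := by positivity
    linarith
  have l2 : L ^ (r - 1) ≤ (2 + x ^ 2) ^ (r - 1) * Real.exp (5 / 2 * b * (r - 1)) := by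
    calc L ^ (r - 1) ≤ ((2 + x ^ 2) * Real.exp (5 / 2 * b)) ^ (r - 1) :=
          Real.rpow_le_rpow hL.le l1 (by linarith)
      _ = (2 + x ^ 2) ^ (r - 1) * Real.exp (5 / 2 * b * (r - 1)) := by
          rw [Real.mul_rpow hΛ.le (Real.exp_pos _).le, ← Real.exp_mul]
  have hLr : L ^ r = L ^ (r - 1) * L := by
    have : r = (r - 1) + 1 := by ring
    conv_lhs => rw [this]
    rw [Real.rpow_add_one hL.ne']
  have hexp : Real.exp (5 / 2 * b * (r - 1)) * Real.exp (2 * b - 4 * r * b) ≤ 1 - b := by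
    rw [← Real.exp_add]
    have h1 : 5 / 2 * b * (r - 1) + (2 * b - 4 * r * b) ≤ -(5 * b) := by
      have h := mul_le_mul_of_nonneg_right hr.le hb.le
      linarith
    have h2 := Real.exp_le_exp.mpr h1
    have h3 := Real.add_one_le_exp (5 * b)
    have h4 : Real.exp (-(5 * b)) * Real.exp (5 * b) = 1 := by
      rw [← Real.exp_add]
      simp
    have h5 := Real.exp_pos (-(5 * b))
    have h6 : Real.exp (-(5 * b)) * (1 + 5 * b) ≤ 1 := by
      have h := mul_le_mul_of_nonneg_left h3 h5.le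
      linarith
    have h7 : Real.exp (-(5 * b)) ≤ 1 - b := by
      by_contra hcon
      push Not at hcon
      have h8 := mul_lt_mul_of_pos_right hcon (by linarith : 0 < 1 + 5 * b)
      have h9 := mul_le_mul_of_nonneg_right hb1 hb.le
      linarith
    linarith
  have hLp : 0 < L ^ (r - 1) := Real.rpow_pos_of_pos hL _
  have hΛp : 0 < (2 + x ^ 2) ^ (r - 1) := Real.rpow_pos_of_pos hΛ _
  calc L ^ r * (w0 ^ 2 * S) ≤ L ^ r * (w0 ^ 2 * L) := by
        have : 0 ≤ L ^ r := Real.rpow_nonneg hL.le r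
        gcongr
    _ = L ^ (r - 1) * (L * w0) ^ 2 := by rw [hLr]; ring
    _ ≤ ((2 + x ^ 2) ^ (r - 1) * Real.exp (5 / 2 * b * (r - 1))) *
          (x ^ 2 * Real.exp (2 * b - 4 * r * b)) :=
        mul_le_mul l2 w3 (sq_nonneg _) (by positivity)
    _ = (2 + x ^ 2) ^ (r - 1) * x ^ 2 *
          (Real.exp (5 / 2 * b * (r - 1)) * Real.exp (2 * b - 4 * r * b)) := by ring
    _ ≤ (2 + x ^ 2) ^ (r - 1) * x ^ 2 * (1 - b) :=
        mul_le_mul_of_nonneg_left hexp (by positivity)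

theorem not_monotonic_top {p : ℝ} (hp : 0 < p) (hp3 : p < 1 / 3) : ¬ Monotonic p ∞ := by
  intro hm
  obtain ⟨r, hr⟩ : ∃ r : ℝ, r = 1 / p := ⟨_, rfl⟩
  have hr3 : 3 < r := by
    rw [hr, lt_div_iff₀ hp]
    linarith
  obtain ⟨b, hb, hbe, hbs⟩ := exists_small (c := 1 / (3200 * r ^ 2))
    (e := min (1 / 100) (1 / (10 * r))) hr3 (by positivity) (lt_min (by norm_num) (by positivity))
  have hb1 : b ≤ 1 / 100 := hbe.trans (min_le_left _ _)
  have hbr : 10 * (r * b) ≤ 1 := by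
    have h1 := hbe.trans (min_le_right _ _)
    rw [le_div_iff₀ (by positivity)] at h1
    linarith
  obtain ⟨x, hx⟩ : ∃ x : ℝ, x = b / (40 * r) := ⟨_, rfl⟩
  have hx' : x * (40 * r) = b := by rw [hx]; field_simp
  have hx0 : 0 < x := by rw [hx]; positivity
  have hx1 : x ≤ b / 120 := by
    have h := mul_le_mul_of_nonneg_left (by linarith : 120 ≤ 40 * r) hx0.le
    linarith
  have hpsd : (mA b x + b • dk (1 / 2)).PosSemidef :=
    (mA_psd hb.le).add (psd_smul (dk_psd (by norm_num)) hb.le)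
  obtain ⟨U, d, hU⟩ := exists_cj hpsd.1
  obtain ⟨V, a, hV⟩ := exists_cj (mA_psd (x := x) hb.le).1
  have ha : ∀ i, 0 ≤ a i := fun i => eig_nonneg (hV ▸ mA_psd hb.le) i
  have hmain := top_lim hp hr hm (U := U) (V := V) (a := a) (d := d) ha (y := ![1, 1 / 2, 0])
    (by intro i; fin_cases i <;> simp) (by simp; norm_num) (by simp) hb (by
      rw [← hU, ← hV]; rfl)
  have hls2 : (1 - x) ^ 2 ≤ 1 := by
    have h := pow_le_pow_left₀ (by linarith : 0 ≤ 1 - x) (by linarith : 1 - x ≤ 1) 2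
    rwa [one_pow] at h
  have hls1 : b * (2 + (1 - x) ^ 2) < 2 + x ^ 2 := by
    have h := mul_le_mul hb1 (by linarith : 2 + (1 - x) ^ 2 ≤ 3) (by positivity)
      (by norm_num : (0 : ℝ) ≤ 1 / 100)
    linarith [sq_nonneg x]
  have hlow := (low_sum hb.le hls1 hls2 (by linarith : 0 < r) hV).1
  obtain ⟨hd, k, hk0, hk1, hk2⟩ := spec_C hb hx0.le (by linarith) (by norm_num) le_rfl hU
  obtain ⟨e0, e1, e2⟩ := eqs hU k _ rfl
  have hcol := col_one U k
  rw [Fin.sum_univ_three] at hcol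
  have n0 : (d k - b) ≠ 0 := by
    have : 0 < d k - b := by linarith [sq_nonneg x]
    exact this.ne'
  have n1 : (d k - b * (1 / 2)) ≠ 0 := by
    have : 0 < d k - b * (1 / 2) := by linarith [sq_nonneg x]
    exact this.ne'
  have n2 : d k ≠ 0 := by
    have : 0 < d k := by linarith [sq_nonneg x]
    exact this.ne'
  have h0 : (d k - b)⁻¹ * (d k - b) = 1 := inv_mul_cancel₀ n0
  have h1 : (d k - b * (1 / 2))⁻¹ * (d k - b * (1 / 2)) = 1 := inv_mul_cancel₀ n1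
  have h2 : (d k)⁻¹ * (d k) = 1 := inv_mul_cancel₀ n2
  generalize (d k - b)⁻¹ = i0 at h0
  generalize (d k - b * (1 / 2))⁻¹ = i1 at h1
  generalize (d k)⁻¹ = i2 at h2
  obtain ⟨-, -, bP1, bP2, bQ1, bQ2, bx, bi0, bi1⟩ :=
    inf_bounds hb hb1 hr3 hbr hx' hk0 hk1 h0 h1 h2
  obtain ⟨P, hP⟩ : ∃ P : ℝ, P = 1 - b * i0 - b * i1 - b * (1 - x) ^ 2 * i2 := ⟨_, rfl⟩
  obtain ⟨Q, hQ⟩ : ∃ Q : ℝ, Q = x * i0 - i1 + (1 - x) * i2 := ⟨_, rfl⟩
  rw [← hP] at bP1 bP2
  rw [← hQ] at bQ1 bQ2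
  have hP0 : P ≠ 0 := by
    have : 0 < P := by linarith
    exact this.ne'
  obtain ⟨τ, w0, w1, w2, S, hS, hτ, hw0, hw1, hw2, hn0, -, -, hn, ht, hs⟩ :=
    col_data (u := fun i => (U : Mat 3) i k) hcol e0 e1 e2 h0 h1 h2 hP hQ hP0
  have hτP : τ * P = Q := by rw [hτ]; field_simp
  obtain ⟨hL, -⟩ := col_real h0 h1 h2 hw0 hw1 hw2 hn ht hs
  have hSL : S ≤ d k := by
    have : 0 ≤ S * (b * τ ^ 2 + b * w0 ^ 2 + b * (1 / 2) * w1 ^ 2) := by positivity
    have e : S * (1 + b * τ ^ 2 + b * w0 ^ 2 + b * (1 / 2) * w1 ^ 2) =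
        S + S * (b * τ ^ 2 + b * w0 ^ 2 + b * (1 / 2) * w1 ^ 2) := by ring
    linarith
  have htop := top_inf hb hb1 hr3 hbr hx' hk0 hk1 hx0 bP1 bP2 bQ1 bQ2 bx bi0 bi1 h0 hτP hw0
    hS.le hSL
  rw [← hn0] at htop
  have hup := sum_split (by linarith : 0 ≤ r) (w := fun j => Complex.normSq ((U : Mat 3) 0 j))
    (v := fun j => Complex.normSq ((U : Mat 3) 0 j)) (W := 1) (B := 5 * b) hd hk2
    (fun j => le_rfl) (fun j => Complex.normSq_nonneg _) (row_one U 0).le (by linarith) htop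
  have hΛ : 1 ≤ (2 + x ^ 2) ^ (r - 1) := Real.one_le_rpow (by linarith [sq_nonneg x]) (by linarith)
  have hfin := (hlow.trans hmain).trans hup
  have hx2 : x ^ 2 = b ^ 2 / (1600 * r ^ 2) := by rw [hx]; field_simp; norm_num
  have h6 : (2 + x ^ 2) ^ (r - 1) * x ^ 2 * b ≤ 1 / (3200 * r ^ 2) * b ^ 3 := by
    linarith
  have h7 : x ^ 2 * b ≤ (2 + x ^ 2) ^ (r - 1) * x ^ 2 * b := by
    have : 1 * (x ^ 2 * b) ≤ (2 + x ^ 2) ^ (r - 1) * (x ^ 2 * b) :=
      mul_le_mul_of_nonneg_right hΛ (by positivity)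
    linarith
  have h8 : x ^ 2 * b = 2 * (1 / (3200 * r ^ 2) * b ^ 3) := by
    rw [hx2]
    field_simp
    norm_num
  have h9 : 0 < 1 / (3200 * r ^ 2) * b ^ 3 := by positivity
  linarith

end Pool.Agent.Lib_helper61.PMN
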