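import Pool.Agent.Lib_helper61.PMN.Red

/-!
# Power means at `q = 1` and `q = ∞`: the limit inequalities for spectral data (MP_9bce2c_an)
-/

open Matrix Filter Topology
open scoped ENNReal BigOperators ComplexOrder

namespace Pool.Agent.Lib_helper61.PMN
open Pool.Agent.Lib_helper41.PM

lemma le_of_pos_limit {f g : ℝ → ℝ} (hf : Continuous f) (hg : Continuous g)
    (h : ∀ z, 0 < z → f z ≤ g z) : f 0 ≤ g 0 :=
  le_of_tendsto_of_tendsto ((hf.tendsto 0).mono_left nhdsWithin_le_nhds)
    ((hg.tendsto 0).mono_left nhdsWithin_le_nhds)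
    (Filter.eventually_of_mem (self_mem_nhdsWithin (s := Set.Ioi (0 : ℝ))) fun z hz => h z hz)

lemma continuous_pow_sum {r : ℝ} (hr : 0 < r) (a w : Fin 3 → ℝ) :
    Continuous (fun z : ℝ => ∑ k, (a k + z) ^ r * w k) :=
  continuous_finsetSum _ fun _ _ =>
    ((Real.continuous_rpow_const hr.le).comp (continuous_const.add continuous_id)).mul
      continuous_const

lemma diag_shift {n : ℕ} (y : Fin n → ℝ) (z : ℝ) :
    (diagonal (fun i => ((y i + z : ℝ) : ℂ)) : Mat n) =
      diagonal (fun i => (y i : ℂ)) + z • (1 : Mat n) := by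
  rw [diagonal_eq_cj, diagonal_eq_cj, cj_add_smul_one]

theorem top_lim {p r : ℝ} (hp : 0 < p) (hr : r = 1 / p) (hm : Monotonic p ∞)
    {U V : unitaryGroup (Fin 3) ℂ} {a d : Fin 3 → ℝ} (ha : ∀ i, 0 ≤ a i)
    {y : Fin 3 → ℝ} (hy : ∀ i, 0 ≤ y i) (h1 : y 1 < y 0) (h2 : y 2 < y 0) {θ : ℝ} (hθ : 0 < θ)
    (hC : cj V (fun i => (a i : ℂ)) + θ • diagonal (fun i => (y i : ℂ)) =
      cj U (fun i => (d i : ℂ))) :
    ∑ k, a k ^ r * Complex.normSq ((V : Mat 3) 0 k) ≤
      ∑ k, d k ^ r * Complex.normSq ((U : Mat 3) 0 k) := by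
  have hr0 : 0 < r := by rw [hr]; positivity
  have hf := continuous_pow_sum hr0 a (fun k => Complex.normSq ((V : Mat 3) 0 k))
  have hg := (continuous_pow_sum hr0 d (fun k => Complex.normSq ((U : Mat 3) 0 k))).comp
    (continuous_const.mul continuous_id : Continuous fun z : ℝ => (1 + θ) * z)
  have := le_of_pos_limit hf hg ?_
  · simpa using this
  · intro z hz
    have hA : (cj V (fun i => ((a i + z : ℝ) : ℂ))).PosDef :=
      posDef_cj V _ fun i => by linarith [ha i]
    have h := red_top hp hr hm hA (y := fun i => y i + z) (fun i => by linarith [hy i])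
      (by linarith) (by linarith) hθ
    have e : cj V (fun i => ((a i + z : ℝ) : ℂ)) + θ • diagonal (fun i => ((y i + z : ℝ) : ℂ)) =
        cj U (fun i => ((d i + (1 + θ) * z : ℝ) : ℂ)) := by
      rw [diag_shift, ← cj_add_smul_one, ← cj_add_smul_one, ← hC]
      module
    rw [e, mpow_diag, mpow_diag] at h
    exact h

/-- the signed weight of a column -/
noncomputable def sw (U : unitaryGroup (Fin 3) ℂ) (k : Fin 3) : ℝ :=
  Complex.normSq ((U : Mat 3) 0 k) + Complex.normSq ((U : Mat 3) 1 k) -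
    Complex.normSq ((U : Mat 3) 2 k)

lemma st_cj (U : unitaryGroup (Fin 3) ℂ) (c : Fin 3 → ℝ) (s : ℝ) :
    st (mpow (cj U (fun i => (c i : ℂ))) s) = ∑ k, c k ^ s * sw U k := by
  unfold st sw
  rw [mpow_diag, mpow_diag, mpow_diag, ← Finset.sum_add_distrib, ← Finset.sum_sub_distrib]
  exact Finset.sum_congr rfl fun k _ => by ring

theorem one_lim {p r : ℝ} (hp : 0 < p) (hr : r = 1 / p) (hm : Monotonic p 1)
    {U V : unitaryGroup (Fin 3) ℂ} {a d : Fin 3 → ℝ} (ha : ∀ i, 0 ≤ a i)
    {θ β : ℝ} (hθ : 0 < θ) (hβ : 0 < β)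
    (hC : cj V (fun i => (a i : ℂ)) + θ • diagonal (fun i => ((![1, β, 0] i : ℝ) : ℂ)) =
      cj U (fun i => (d i : ℂ))) :
    ∑ k, a k ^ r * sw V k ≤ max (∑ k, d k ^ r * sw U k) 0 := by
  have hr0 : 0 < r := by rw [hr]; positivity
  have hf := continuous_pow_sum hr0 a (sw V)
  have hG := continuous_pow_sum hr0 d (sw U)
  have hg : Continuous fun z : ℝ => max (∑ k, (d k + z) ^ r * sw U k) 0 :=
    hG.max continuous_const
  have := le_of_pos_limit hf hg ?_
  · simpa using this
  · intro z hz
    have hA : (cj V (fun i => ((a i + z : ℝ) : ℂ))).PosDef :=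
      posDef_cj V _ fun i => by linarith [ha i]
    obtain ⟨M, hM⟩ : ∃ M : Mat 3, M = mpow (cj V (fun i => ((a i + z : ℝ) : ℂ))) r := ⟨_, rfl⟩
    have hMp : M.PosSemidef := by rw [hM]; exact (mpow_posDef' hA r).posSemidef
    set τ := ∑ i, (M i i).re with hτ
    have hτ0 : 0 ≤ τ := (diag_nonneg' hMp 0).trans (diag_le_trace hMp 0)
    obtain ⟨m, hm0⟩ : ∃ m : ℝ, m = (min 1 β) ^ r := ⟨_, rfl⟩
    have hmp : 0 < m := by rw [hm0]; exact Real.rpow_pos_of_pos (lt_min one_pos hβ) r
    obtain ⟨K, hK, hKm⟩ : ∃ K : ℝ, 0 < K ∧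
        2 * (Complex.normSq (M 0 2) + Complex.normSq (M 1 2)) ≤ m * K := by
      have n1 := Complex.normSq_nonneg (M 0 2)
      have n2 := Complex.normSq_nonneg (M 1 2)
      refine ⟨2 * (Complex.normSq (M 0 2) + Complex.normSq (M 1 2)) / m + 1, by positivity, ?_⟩
      have : m * (2 * (Complex.normSq (M 0 2) + Complex.normSq (M 1 2)) / m + 1) =
        2 * (Complex.normSq (M 0 2) + Complex.normSq (M 1 2)) + m := by
        field_simp
      rw [this]
      linarith
    have key : ∀ ε : ℝ, 0 < ε → ε ≤ m / 2 / (τ + 1) →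
        ∑ k, (a k + z) ^ r * sw V k - max (∑ k, (d k + z) ^ r * sw U k) 0 ≤ (2 * K) * ε := by
      intro ε hε hε2
      rw [le_div_iff₀ (by linarith)] at hε2
      have hε3 : 2 * (ε * τ) ≤ m := by nlinarith
      have hl : Continuous fun ζ : ℝ => ε * (∑ k, (a k + z) ^ r * sw V k -
          max (∑ k, (d k + (z + θ * ζ)) ^ r * sw U k) 0) := by
        refine continuous_const.mul (continuous_const.sub (Continuous.max ?_ continuous_const))
        exact hG.comp (continuous_const.add (continuous_const.mul continuous_id) :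
          Continuous fun ζ : ℝ => z + θ * ζ)
      have hr' : Continuous fun ζ : ℝ => 2 * ζ ^ r + 2 * K * ε ^ 2 :=
        (continuous_const.mul (Real.continuous_rpow_const hr0.le)).add continuous_const
      have h := le_of_pos_limit hl hr' ?_
      · simp only [mul_zero, add_zero, Real.zero_rpow hr0.ne', zero_add] at h
        have h2 : ε * (∑ k, (a k + z) ^ r * sw V k - max (∑ k, (d k + z) ^ r * sw U k) 0) ≤
            ε * ((2 * K) * ε) := by
          refine h.trans (le_of_eq ?_)
          ring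
        exact le_of_mul_le_mul_left h2 hε
      · intro ζ hζ
        have hy0 : ∀ i, 0 < (fun i => (![1, β, 0] : Fin 3 → ℝ) i + ζ) i := by
          intro i
          fin_cases i
          · simp; linarith
          · simp; linarith
          · simpa using hζ
        have b0 : m ≤ (fun i => (![1, β, 0] : Fin 3 → ℝ) i + ζ) 0 ^ r := by
          rw [hm0]
          refine Real.rpow_le_rpow (lt_min one_pos hβ).le ?_ hr0.le
          have := min_le_left 1 β
          change min 1 β ≤ 1 + ζ
          linarith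
        have b1 : m ≤ (fun i => (![1, β, 0] : Fin 3 → ℝ) i + ζ) 1 ^ r := by
          rw [hm0]
          refine Real.rpow_le_rpow (lt_min one_pos hβ).le ?_ hr0.le
          have := min_le_right 1 β
          change min 1 β ≤ β + ζ
          linarith
        have h := red_one hp hr hm hA (y := fun i => (![1, β, 0] : Fin 3 → ℝ) i + ζ) hy0 hθ b0 b1 hε
          hK (by rw [← hM]; exact hε3) (by rw [← hM]; exact hKm)
        have e : cj V (fun i => ((a i + z : ℝ) : ℂ)) +
            θ • diagonal (fun i => ((![1, β, 0] i + ζ : ℝ) : ℂ)) =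
            cj U (fun i => ((d i + (z + θ * ζ) : ℝ) : ℂ)) := by
          rw [diag_shift, ← cj_add_smul_one, ← cj_add_smul_one, ← hC]
          module
        rw [e, st_cj, st_cj] at h
        simpa using h
    have := le_zero_of_small (by linarith : 0 < 2 * K)
      (div_pos (by linarith : 0 < m / 2) (by linarith : 0 < τ + 1)) key
    linarith

end Pool.Agent.Lib_helper61.PMN
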