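import Pool.Agent.Lib_helper41.PM.Neg

/-!
# Power means at `q = 1` and `q = ∞`: norms and powers of Hermitian matrices (MP_9bce2c_an)
-/

open Matrix
open scoped ENNReal BigOperators ComplexOrder

namespace Pool.Agent.Lib_helper61.PMN
open Pool.Agent.Lib_helper41.PM

variable {n : ℕ}

lemma nq_top_le {x : Fin n → ℝ} {R : ℝ} (hR : 0 ≤ R) (h : ∀ i, |x i| ≤ R) : nq ∞ x ≤ R := by
  unfold nq
  rw [PiLp.norm_eq_ciSup]
  rcases isEmpty_or_nonempty (Fin n) with he | he
  · simpa using hR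
  · exact ciSup_le fun i => by simpa using h i

lemma nq_one_eq (x : Fin n → ℝ) : nq 1 x = ∑ i, |x i| := by
  unfold nq
  rw [PiLp.norm_eq_sum (by simp)]
  simp

lemma schatten_cj (q : ℝ≥0∞) (hq : 1 ≤ q) (U : unitaryGroup (Fin n) ℂ) (c : Fin n → ℝ) :
    schatten q (cj U (fun i => (c i : ℂ))) = nq q c := by
  unfold cj
  exact schatten_conj hq U c

lemma schatten_top_le {Z : Mat n} (hZ : Z.IsHermitian) {R : ℝ} (hR : 0 ≤ R)
    (h1 : (R • (1 : Mat n) - Z).PosSemidef) (h2 : (R • (1 : Mat n) + Z).PosSemidef) :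
    schatten ∞ Z ≤ R := by
  obtain ⟨U, c, rfl⟩ := exists_cj hZ
  rw [schatten_cj ∞ (by simp)]
  refine nq_top_le hR fun i => abs_le.mpr ⟨?_, eig_le h1 rfl i⟩
  refine le_eig (N := cj U (fun i => (c i : ℂ))) (L := -R) (V := U) (d := c) ?_ rfl i
  have e : cj U (fun i => (c i : ℂ)) - (-R) • (1 : Mat n) =
      R • (1 : Mat n) + cj U (fun i => (c i : ℂ)) := by
    rw [neg_smul, sub_neg_eq_add, add_comm]
  rw [e]
  exact h2

lemma smul_cj (U : unitaryGroup (Fin n) ℂ) (a : ℝ) (c : Fin n → ℝ) :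
    a • cj U (fun i => (c i : ℂ)) = cj U (fun i => ((a * c i : ℝ) : ℂ)) := by
  rw [cj_smul]
  congr 1
  ext i
  simp

lemma cj_add_smul_one (U : unitaryGroup (Fin n) ℂ) (z : ℝ) (c : Fin n → ℝ) :
    cj U (fun i => (c i : ℂ)) + z • (1 : Mat n) = cj U (fun i => ((c i + z : ℝ) : ℂ)) := by
  rw [← cj_one U, cj_smul, cj_add]
  congr 1
  ext i
  simp

lemma smul_one_sub_cj (U : unitaryGroup (Fin n) ℂ) (z : ℝ) (c : Fin n → ℝ) :
    z • (1 : Mat n) - cj U (fun i => (c i : ℂ)) = cj U (fun i => ((z - c i : ℝ) : ℂ)) := by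
  rw [sub_eq_iff_eq_add, ← cj_one U, cj_smul, cj_add]
  congr 1
  ext i
  simp

lemma diagonal_eq_cj (y : Fin n → ℝ) :
    (diagonal (fun i => (y i : ℂ)) : Mat n) = cj 1 (fun i => (y i : ℂ)) := by
  unfold cj
  simp

lemma cj_apply (U : unitaryGroup (Fin n) ℂ) (c : Fin n → ℝ) (i j : Fin n) :
    cj U (fun i => (c i : ℂ)) i j = ∑ k, (U : Mat n) i k * (c k : ℂ) * star ((U : Mat n) j k) := by
  unfold cj
  rw [mul_apply]
  refine Finset.sum_congr rfl fun k _ => ?_
  rw [mul_diagonal, star_apply]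

lemma cj_diag (U : unitaryGroup (Fin n) ℂ) (c : Fin n → ℝ) (i : Fin n) :
    (cj U (fun i => (c i : ℂ)) i i).re = ∑ k, c k * Complex.normSq ((U : Mat n) i k) := by
  rw [cj_apply, Complex.re_sum]
  refine Finset.sum_congr rfl fun k _ => ?_
  have : (U : Mat n) i k * (c k : ℂ) * star ((U : Mat n) i k) =
      ((c k * Complex.normSq ((U : Mat n) i k) : ℝ) : ℂ) := by
    push_cast
    rw [← Complex.mul_conj]
    simp only [RCLike.star_def]
    ring
  rw [this, Complex.ofReal_re]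

lemma row_one (U : unitaryGroup (Fin n) ℂ) (i : Fin n) :
    ∑ k, Complex.normSq ((U : Mat n) i k) = 1 := by
  have h := cj_diag U (fun _ => 1) i
  simp only [one_mul] at h
  rw [← h]
  have : cj U (fun _ => ((1 : ℝ) : ℂ)) = 1 := by
    rw [← cj_one U]
    congr 1
  rw [this]
  simp

lemma col_one (U : unitaryGroup (Fin n) ℂ) (k : Fin n) :
    ∑ i, Complex.normSq ((U : Mat n) i k) = 1 := by
  have h2 := congrFun (congrFun (unitary_star_mul U) k) k
  rw [mul_apply, one_apply_eq] at h2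
  have h3 : (∑ i, (Complex.normSq ((U : Mat n) i k) : ℂ)) = 1 := by
    rw [← h2]
    refine Finset.sum_congr rfl fun i _ => ?_
    rw [star_apply, mul_comm]
    exact (Complex.mul_conj _).symm
  exact_mod_cast h3

lemma sum_eig (U : unitaryGroup (Fin n) ℂ) (c : Fin n → ℝ) :
    ∑ k, c k = ∑ i, (cj U (fun i => (c i : ℂ)) i i).re := by
  simp only [cj_diag]
  rw [Finset.sum_comm]
  refine Finset.sum_congr rfl fun k _ => ?_
  rw [← Finset.mul_sum, col_one, mul_one]

lemma eigen_eq (U : unitaryGroup (Fin n) ℂ) (c : Fin n → ℝ) (i k : Fin n) :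
    ∑ j, cj U (fun i => (c i : ℂ)) i j * (U : Mat n) j k = (c k : ℂ) * (U : Mat n) i k := by
  have h : cj U (fun i => (c i : ℂ)) * (U : Mat n) = (U : Mat n) * diagonal (fun i => (c i : ℂ)) := by
    unfold cj
    rw [mul_assoc, unitary_star_mul, mul_one]
  have h2 := congrFun (congrFun h i) k
  rw [mul_apply, mul_diagonal] at h2
  rw [h2, mul_comm]

lemma eig_nonneg {U : unitaryGroup (Fin n) ℂ} {c : Fin n → ℝ}
    (h : (cj U (fun i => (c i : ℂ))).PosSemidef) (i : Fin n) : 0 ≤ c i :=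
  le_eig (L := 0) (by simpa using h) rfl i

/-- powers of the shifted matrix, diagonal entries -/
lemma mpow_diag (U : unitaryGroup (Fin n) ℂ) (c : Fin n → ℝ) (s : ℝ) (i : Fin n) :
    (mpow (cj U (fun i => (c i : ℂ))) s i i).re =
      ∑ k, (c k) ^ s * Complex.normSq ((U : Mat n) i k) := by
  rw [mpow_cj, cj_diag]

lemma mpow_smul_pos {A : Mat n} (hA : A.PosDef) {c : ℝ} (hc : 0 ≤ c) (s : ℝ) :
    mpow (c • A) s = (c ^ s) • mpow A s := by
  obtain ⟨U, a, rfl⟩ := exists_cj hA.1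
  rw [smul_cj, mpow_cj, mpow_cj, smul_cj]
  congr 1
  ext i
  rw [Real.mul_rpow hc (posDef_cj_pos U a hA i).le]

lemma mpow_diagonal (y : Fin n → ℝ) (s : ℝ) :
    mpow (diagonal (fun i => (y i : ℂ)) : Mat n) s = diagonal (fun i => (((y i) ^ s : ℝ) : ℂ)) := by
  rw [diagonal_eq_cj, mpow_cj, diagonal_eq_cj]

lemma mpow_posDef' {A : Mat n} (hA : A.PosDef) (s : ℝ) : (mpow A s).PosDef := by
  obtain ⟨U, a, rfl⟩ := exists_cj hA.1
  rw [mpow_cj]
  exact posDef_cj U _ fun i => Real.rpow_pos_of_pos (posDef_cj_pos U a hA i) s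

lemma mpow_mpow' {A : Mat n} (hA : A.PosDef) {r p : ℝ} (h : r * p = 1) :
    mpow (mpow A r) p = A := by
  obtain ⟨U, a, rfl⟩ := exists_cj hA.1
  rw [mpow_cj, mpow_cj]
  congr 1
  ext i
  rw [← Real.rpow_mul (posDef_cj_pos U a hA i).le, h, Real.rpow_one]

lemma trace_re {P : Mat n} : P.trace.re = ∑ i, (P i i).re := by
  simp [Matrix.trace]

/-- a positive semidefinite matrix is at most its trace -/
lemma trace_sub_posSemidef {P : Mat n} (hP : P.PosSemidef) :
    ((∑ i, (P i i).re) • (1 : Mat n) - P).PosSemidef := by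
  obtain ⟨U, c, rfl⟩ := exists_cj hP.1
  rw [← sum_eig, smul_one_sub_cj]
  apply posSemidef_cj
  intro i
  have := Finset.single_le_sum (f := c) (fun j _ => eig_nonneg hP j) (Finset.mem_univ i)
  linarith

lemma schatten_one_posSemidef {P : Mat n} (hP : P.PosSemidef) :
    schatten 1 P = ∑ i, (P i i).re := by
  obtain ⟨U, c, rfl⟩ := exists_cj hP.1
  rw [schatten_cj 1 le_rfl, nq_one_eq, ← sum_eig]
  exact Finset.sum_congr rfl fun i _ => abs_of_nonneg (eig_nonneg hP i)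

lemma dg_one_eq (C : Mat n) (i : Fin n) : dg 1 C i = (C i i).re := by
  simp [dg]

lemma abs_diag_le_schatten_top {C : Mat n} (hC : C.IsHermitian) (i : Fin n) :
    |(C i i).re| ≤ schatten ∞ C := by
  rw [← dg_one_eq]
  exact abs_dg_le_schatten (by simp) 1 hC i

lemma sum_abs_diag_le_schatten_one {C : Mat n} (hC : C.IsHermitian) :
    ∑ i, |(C i i).re| ≤ schatten 1 C := by
  have := nq_dg_le (q := 1) le_rfl 1 hC
  rw [nq_one_eq] at this
  simpa only [dg_one_eq] using this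

lemma diag_le_trace {P : Mat n} (hP : P.PosSemidef) (i : Fin n) :
    (P i i).re ≤ ∑ j, (P j j).re :=
  Finset.single_le_sum (f := fun j => (P j j).re)
    (fun j _ => (Complex.le_def.mp (hP.diag_nonneg (i := j))).1) (Finset.mem_univ i)

lemma diag_nonneg' {P : Mat n} (hP : P.PosSemidef) (i : Fin n) : 0 ≤ (P i i).re :=
  (Complex.le_def.mp (hP.diag_nonneg (i := i))).1

end Pool.Agent.Lib_helper61.PMN
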