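import Pool.Agent.Lib_helper61.PMN.Inf

/-!
# Power means: failure of monotonicity at `q = 1` for `0 < p < 1/3` (MP_9bce2c_an)
-/

open Matrix Filter Topology
open scoped ENNReal BigOperators ComplexOrder

namespace Pool.Agent.Lib_helper61.PMN
open Pool.Agent.Lib_helper41.PM

lemma one_bounds {b x L i0 i1 i2 : ℝ} (hb : 0 < b) (hb1 : b ≤ 1 / 100) (hx : x = b / 2)
    (hL0 : 2 + x ^ 2 ≤ L) (hL1 : L ≤ 2 + x ^ 2 + 5 * b)
    (h0 : i0 * (L - b) = 1) (h1 : i1 * (L - b * b ^ 3) = 1) (h2 : i2 * L = 1) :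
    1 - b * i0 - b * i1 - b * (1 - x) ^ 2 * i2 ≤ 1 ∧
    98 / 100 ≤ 1 - b * i0 - b * i1 - b * (1 - x) ^ 2 * i2 ∧
    1174 / 10000 * b ^ 2 ≤ x * i0 - i1 + (1 - x) * i2 ∧
    x * i0 - i1 + (1 - x) * i2 ≤ 1258 / 10000 * b ^ 2 ∧
    0 < i0 ∧ i0 ≤ 503 / 1000 ∧ 0 < i1 ∧ i1 ≤ 501 / 1000 := by
  have hx0 : 0 < x := by rw [hx]; positivity
  have hx1 : x ≤ 1 / 200 := by rw [hx]; linarith
  have hxx : x ^ 2 ≤ 1 / 1000 := by
    have h := pow_le_pow_left₀ hx0.le hx1 2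
    norm_num at h
    linarith
  have hL2 : 2 ≤ L := by linarith [sq_nonneg x]
  have hL3 : L ≤ 206 / 100 := by linarith
  have hb2 : b ^ 2 ≤ 1 / 10000 := by
    have h := pow_le_pow_left₀ hb.le hb1 2
    norm_num at h
    linarith
  have hb4 : b * b ^ 3 ≤ 1 / 10000 * b ^ 2 := by
    have : b * b ^ 3 = b ^ 2 * b ^ 2 := by ring
    rw [this]
    exact mul_le_mul_of_nonneg_right hb2 (by positivity)
  have hb40 : 0 < b * b ^ 3 := by positivity
  have hb41 : b * b ^ 3 ≤ 1 / 1000000 := by linarith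
  have p0 : 0 < L - b := by linarith
  have p1 : 0 < L - b * b ^ 3 := by linarith
  have p2 : 0 < L := by linarith
  have j0 : 0 < i0 := by
    rw [eq_inv_of_mul_eq_one_left h0]
    exact inv_pos.2 p0
  have j1 : 0 < i1 := by
    rw [eq_inv_of_mul_eq_one_left h1]
    exact inv_pos.2 p1
  have j2 : 0 < i2 := by
    rw [eq_inv_of_mul_eq_one_left h2]
    exact inv_pos.2 p2
  have k0 : i0 ≤ 503 / 1000 := by
    have h := mul_le_mul_of_nonneg_left (by linarith : 199 / 100 ≤ L - b) j0.le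
    linarith
  have k1 : i1 ≤ 501 / 1000 := by
    have h := mul_le_mul_of_nonneg_left (by linarith : 1999 / 1000 ≤ L - b * b ^ 3) j1.le
    linarith
  have k2 : i2 ≤ 1 / 2 := by
    have h := mul_le_mul_of_nonneg_left hL2 j2.le
    linarith
  have l0 : 485 / 1000 ≤ i0 := by
    have h := mul_le_mul_of_nonneg_left (by linarith : L - b ≤ 206 / 100) j0.le
    linarith
  have l2 : 485 / 1000 ≤ i2 := by
    have h := mul_le_mul_of_nonneg_left hL3 j2.le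
    linarith
  have q1 : (1 - x) ^ 2 ≤ 1 := by
    have h := pow_le_pow_left₀ (by linarith : 0 ≤ 1 - x) (by linarith : 1 - x ≤ 1) 2
    rwa [one_pow] at h
  have d1 : i0 - i2 = b * i0 * i2 := by
    linear_combination i2 * h0 - i0 * h2
  have d2 : i1 - i2 = b * b ^ 3 * i1 * i2 := by
    linear_combination i2 * h1 - i1 * h2
  have hQ : x * i0 - i1 + (1 - x) * i2 = b ^ 2 / 2 * (i0 * i2) - b * b ^ 3 * (i1 * i2) := by
    have : x * i0 - i1 + (1 - x) * i2 = x * (b * i0 * i2) - b * b ^ 3 * i1 * i2 := by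
      linear_combination x * d1 - d2
    rw [this, hx]
    ring
  have m1 : 0 < i1 * i2 := mul_pos j1 j2
  have m2 : i1 * i2 ≤ 26 / 100 := by
    have h := mul_le_mul k1 k2 j2.le (by norm_num)
    norm_num at h
    linarith
  have m3 : 2352 / 10000 ≤ i0 * i2 := by
    have h := mul_le_mul l0 l2 (by norm_num) j0.le
    norm_num at h
    linarith
  have m4 : i0 * i2 ≤ 2516 / 10000 := by
    have h := mul_le_mul k0 k2 j2.le (by norm_num)
    norm_num at h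
    linarith
  have m5 : b * (1 - x) ^ 2 * i2 ≤ b * i2 := by
    have : b * i2 * (1 - x) ^ 2 ≤ b * i2 * 1 := mul_le_mul_of_nonneg_left q1 (by positivity)
    linarith
  have m6 : 0 ≤ b * (1 - x) ^ 2 * i2 := by positivity
  have m7 : 0 < b * i0 := by positivity
  have m8 : 0 < b * i1 := by positivity
  have n0 : b * i0 ≤ 503 / 100000 := by
    have h := mul_le_mul hb1 k0 j0.le (by norm_num)
    norm_num at h
    linarith
  have n1 : b * i1 ≤ 501 / 100000 := by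
    have h := mul_le_mul hb1 k1 j1.le (by norm_num)
    norm_num at h
    linarith
  have n2 : b * i2 ≤ 1 / 200 := by
    have h := mul_le_mul hb1 k2 j2.le (by norm_num)
    norm_num at h
    linarith
  refine ⟨by linarith, by linarith, ?_, ?_, j0, k0, j1, k1⟩
  · rw [hQ]
    have a1 : b ^ 2 / 2 * (2352 / 10000) ≤ b ^ 2 / 2 * (i0 * i2) :=
      mul_le_mul_of_nonneg_left m3 (by positivity)
    have a2 : b * b ^ 3 * (i1 * i2) ≤ b * b ^ 3 * (26 / 100) :=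
      mul_le_mul_of_nonneg_left m2 hb40.le
    linarith [sq_nonneg b]
  · rw [hQ]
    have a1 : b ^ 2 / 2 * (i0 * i2) ≤ b ^ 2 / 2 * (2516 / 10000) :=
      mul_le_mul_of_nonneg_left m4 (by positivity)
    have a2 : 0 ≤ b * b ^ 3 * (i1 * i2) := by positivity
    linarith

/-- the top eigenvalue times its signed weight -/
lemma one_weight {b x L i0 i1 i2 τ w0 w1 w2 S P Q : ℝ} (hb : 0 < b) (hb1 : b ≤ 1 / 100)
    (hx : x = b / 2) (hL0 : 2 + x ^ 2 ≤ L)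
    (hP1 : P ≤ 1) (hP2 : 98 / 100 ≤ P) (hQ1 : 1174 / 10000 * b ^ 2 ≤ Q)
    (hQ2 : Q ≤ 1258 / 10000 * b ^ 2) (hi0 : 0 < i0) (hi0' : i0 ≤ 503 / 1000) (hi1 : 0 < i1)
    (hi1' : i1 ≤ 501 / 1000) (h2 : i2 * L = 1) (hτ : τ * P = Q) (hw0 : w0 = i0 * (b * τ + x))
    (hw1 : w1 = i1 * (1 - b * τ)) (hw2 : w2 = i2 * (b * (x - 1) * τ - 1)) (hS0 : 0 < S)
    (hn : (w0 ^ 2 + w1 ^ 2 + w2 ^ 2) * S = 1)
    (hLS : L = S * (1 + b * τ ^ 2 + b * w0 ^ 2 + b * b ^ 3 * w1 ^ 2))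
    (hμ : L - (2 + x ^ 2) = b * (x * w0 + b ^ 3 * w1)) :
    L - (2 + x ^ 2) ≤ 1311 / 10000 * b ^ 3 ∧
    L * (w0 ^ 2 * S + w1 ^ 2 * S - w2 ^ 2 * S) ≤ x ^ 2 - b ^ 3 / 5 := by
  have hL : 0 < L := by linarith [sq_nonneg x]
  have hb2 : b ^ 2 ≤ 1 / 10000 := by
    have h := pow_le_pow_left₀ hb.le hb1 2
    norm_num at h
    linarith
  have hb20 : 0 < b ^ 2 := by positivity
  have hb30 : 0 < b ^ 3 := by positivity
  have hb3 : b ^ 3 ≤ 1 / 1000000 := by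
    have : b ^ 3 = b ^ 2 * b := by ring
    rw [this]
    have h := mul_le_mul hb2 hb1 hb.le (by norm_num)
    norm_num at h
    linarith
  have hPp : 0 < P := by linarith
  have t1 : 1174 / 10000 * b ^ 2 ≤ τ := by
    have e : τ = Q / P := by
      rw [eq_div_iff hPp.ne']
      exact hτ
    rw [e, le_div_iff₀ hPp]
    have h := mul_le_mul_of_nonneg_left hP1 (by positivity : 0 ≤ 1174 / 10000 * b ^ 2)
    linarith
  have t0 : 0 < τ := by linarith
  have t2 : τ ≤ 13 / 100 * b ^ 2 := by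
    have h := mul_le_mul_of_nonneg_left hP2 t0.le
    linarith
  have x1 : 0 < x := by rw [hx]; positivity
  have bt1 : 1174 / 10000 * b ^ 3 ≤ b * τ := by
    have := mul_le_mul_of_nonneg_left t1 hb.le
    linarith
  have bt2 : b * τ ≤ 13 / 100 * b ^ 3 := by
    have := mul_le_mul_of_nonneg_left t2 hb.le
    linarith
  have bt3 : b * τ ≤ 1 / 10000 * b := by
    have : b ^ 3 = b ^ 2 * b := by ring
    rw [this] at bt2
    have h := mul_le_mul_of_nonneg_right hb2 hb.le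
    linarith
  have w00 : 0 ≤ w0 := by rw [hw0]; positivity
  have w01 : w0 ≤ 252 / 1000 * b := by
    rw [hw0]
    calc i0 * (b * τ + x) ≤ 503 / 1000 * (1 / 10000 * b + b / 2) := by
          rw [hx]
          gcongr
      _ ≤ 252 / 1000 * b := by linarith
  have w10 : 0 ≤ w1 := by
    rw [hw1]
    apply mul_nonneg hi1.le
    linarith
  have w11 : w1 ≤ 501 / 1000 := by
    rw [hw1]
    have : i1 * (1 - b * τ) ≤ i1 * 1 := mul_le_mul_of_nonneg_left (by linarith) hi1.le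
    linarith
  have w0s : w0 ^ 2 ≤ 636 / 10000 * b ^ 2 := by
    have : w0 ^ 2 ≤ (252 / 1000 * b) ^ 2 := pow_le_pow_left₀ w00 w01 2
    have h2 : (252 / 1000 * b) ^ 2 = 63504 / 1000000 * b ^ 2 := by ring
    linarith
  have w1s : w1 ^ 2 ≤ 2511 / 10000 := by
    have : w1 ^ 2 ≤ (501 / 1000) ^ 2 := pow_le_pow_left₀ w10 w11 2
    norm_num at this
    linarith
  obtain ⟨D, hD⟩ : ∃ D : ℝ, D = b * τ ^ 2 + b * w0 ^ 2 + b * b ^ 3 * w1 ^ 2 := ⟨_, rfl⟩
  have hD0 : 0 ≤ D := by rw [hD]; positivity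
  have hD1 : D ≤ 662 / 10000 * b ^ 3 := by
    have a1 : b * τ ^ 2 ≤ 1 / 100000 * b ^ 3 := by
      have c1 : τ ^ 2 ≤ (13 / 100 * b ^ 2) ^ 2 := pow_le_pow_left₀ t0.le t2 2
      have c2 : b * τ ^ 2 ≤ b * (13 / 100 * b ^ 2) ^ 2 := mul_le_mul_of_nonneg_left c1 hb.le
      have c3 : b * (13 / 100 * b ^ 2) ^ 2 = 169 / 10000 * (b ^ 2 * b ^ 3) := by ring
      have c4 : b ^ 2 * b ^ 3 ≤ 1 / 10000 * b ^ 3 := mul_le_mul_of_nonneg_right hb2 hb30.le
      linarith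
    have a2 : b * w0 ^ 2 ≤ 636 / 10000 * b ^ 3 := by
      have := mul_le_mul_of_nonneg_left w0s hb.le
      linarith
    have a3 : b * b ^ 3 * w1 ^ 2 ≤ 2511 / 1000000 * b ^ 3 := by
      have c1 : b * b ^ 3 * w1 ^ 2 ≤ b * b ^ 3 * (2511 / 10000) :=
        mul_le_mul_of_nonneg_left w1s (by positivity)
      have c2 : b * b ^ 3 ≤ 1 / 100 * b ^ 3 := mul_le_mul_of_nonneg_right hb1 hb30.le
      linarith
    rw [hD]
    linarith
  have hμ1 : L - (2 + x ^ 2) ≤ 1311 / 10000 * b ^ 3 := by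
    rw [hμ]
    have a1 : b * (x * w0) ≤ 126 / 1000 * b ^ 3 := by
      rw [hx]
      have h := mul_le_mul_of_nonneg_left w01 (by positivity : 0 ≤ b * (b / 2))
      have e1 : b * (b / 2) * w0 = b * (b / 2 * w0) := by ring
      have e2 : b * (b / 2) * (252 / 1000 * b) = 126 / 1000 * b ^ 3 := by ring
      linarith
    have a2 : b * (b ^ 3 * w1) ≤ 501 / 100000 * b ^ 3 := by
      have c1 : b * b ^ 3 * w1 ≤ b * b ^ 3 * (501 / 1000) :=
        mul_le_mul_of_nonneg_left w11 (by positivity)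
      have c2 : b * b ^ 3 ≤ 1 / 100 * b ^ 3 := mul_le_mul_of_nonneg_right hb1 hb30.le
      have e1 : b * (b ^ 3 * w1) = b * b ^ 3 * w1 := by ring
      linarith
    linarith
  refine ⟨hμ1, ?_⟩
  obtain ⟨G, hG⟩ : ∃ G : ℝ, G = b * (1 - x) * τ := ⟨_, rfl⟩
  have hG1 : 1168 / 10000 * b ^ 3 ≤ G := by
    have : G = (b * τ) * (1 - x) := by rw [hG]; ring
    rw [this, hx]
    have h := mul_le_mul_of_nonneg_left (by linarith : 199 / 200 ≤ 1 - b / 2)
      (by positivity : 0 ≤ b * τ)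
    linarith
  have hLw : L * w2 = -(1 + G) := by
    rw [hw2, hG]
    linear_combination (b * (x - 1) * τ - 1) * h2
  have hLw2 : L ^ 2 * w2 ^ 2 = (1 + G) ^ 2 := by
    rw [← mul_pow, hLw]
    ring
  have hLS' : L = S * (1 + D) := by
    rw [hD]
    linarith
  have hZ : (L * (w2 ^ 2 * S)) * (1 + D) = (1 + G) ^ 2 := by
    rw [← hLw2]
    linear_combination (-(L * w2 ^ 2)) * hLS'
  have hZ1 : 1 + 167 / 1000 * b ^ 3 ≤ L * (w2 ^ 2 * S) := by
    by_contra hcon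
    push Not at hcon
    have c1 : (L * (w2 ^ 2 * S)) * (1 + D) < (1 + 167 / 1000 * b ^ 3) * (1 + D) :=
      mul_lt_mul_of_pos_right hcon (by linarith)
    have c2 : (1 + 167 / 1000 * b ^ 3) * (1 + D) ≤
        (1 + 167 / 1000 * b ^ 3) * (1 + 662 / 10000 * b ^ 3) :=
      mul_le_mul_of_nonneg_left (by linarith) (by positivity)
    have c3 : (1 + 167 / 1000 * b ^ 3) * (1 + 662 / 10000 * b ^ 3) ≤ 1 + 2336 / 10000 * b ^ 3 := by
      have h := mul_le_mul_of_nonneg_right hb3 hb30.le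
      have e : (1 + 167 / 1000 * b ^ 3) * (1 + 662 / 10000 * b ^ 3) =
          1 + 2332 / 10000 * b ^ 3 + 110554 / 10000000 * (b ^ 3 * b ^ 3) := by ring
      rw [e]
      linarith
    have c4 : 1 + 2336 / 10000 * b ^ 3 ≤ (1 + G) ^ 2 := by
      have e : (1 + G) ^ 2 = 1 + 2 * G + G ^ 2 := by ring
      rw [e]
      linarith [sq_nonneg G]
    linarith
  have hsw : L * (w0 ^ 2 * S + w1 ^ 2 * S - w2 ^ 2 * S) = L - 2 * (L * (w2 ^ 2 * S)) := by
    linear_combination L * hn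
  rw [hsw]
  linarith

lemma top_one {b r x L W : ℝ} (hb : 0 < b) (hb1 : b ≤ 1 / 100) (hr : 3 < r)
    (hbr : 10 * (r * b) ≤ 1) (hx : x = b / 2) (hL0 : 2 + x ^ 2 ≤ L)
    (hμ : L - (2 + x ^ 2) ≤ 1311 / 10000 * b ^ 3) (hW : L * W ≤ x ^ 2 - b ^ 3 / 5) :
    L ^ r * W ≤ (2 + x ^ 2) ^ (r - 1) * (x ^ 2 - b ^ 3 / 6) := by
  have hΛ : 0 < 2 + x ^ 2 := by positivity
  have hL : 0 < L := by linarith
  have hb30 : 0 < b ^ 3 := by positivity
  obtain ⟨y, hy⟩ : ∃ y : ℝ, y = 7 / 100 * r * b ^ 3 := ⟨_, rfl⟩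
  have hy0 : 0 < y := by rw [hy]; positivity
  have hb2 : b ^ 2 ≤ 1 / 10000 := by
    have h := pow_le_pow_left₀ hb.le hb1 2
    norm_num at h
    linarith
  have hy1 : y ≤ 1 / 100 * b ^ 2 := by
    have : y = 7 / 100 * ((r * b) * b ^ 2) := by rw [hy]; ring
    rw [this]
    have h2 : (r * b) * b ^ 2 ≤ 1 / 10 * b ^ 2 :=
      mul_le_mul_of_nonneg_right (by linarith) (by positivity)
    linarith [sq_nonneg b]
  have l1 : L ≤ (2 + x ^ 2) * Real.exp ((L - (2 + x ^ 2)) / 2) := by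
    have h1 := Real.add_one_le_exp ((L - (2 + x ^ 2)) / 2)
    have h2 := mul_le_mul_of_nonneg_left h1 hΛ.le
    have h3 : 0 ≤ x ^ 2 * (L - (2 + x ^ 2)) := mul_nonneg (sq_nonneg x) (by linarith)
    have h4 : (2 + x ^ 2) * ((L - (2 + x ^ 2)) / 2 + 1) =
        L + x ^ 2 * (L - (2 + x ^ 2)) / 2 := by ring
    rw [h4] at h2
    linarith
  have l2 : L ^ (r - 1) ≤ (2 + x ^ 2) ^ (r - 1) * Real.exp y := by
    calc L ^ (r - 1) ≤ ((2 + x ^ 2) * Real.exp ((L - (2 + x ^ 2)) / 2)) ^ (r - 1) :=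
          Real.rpow_le_rpow hL.le l1 (by linarith)
      _ = (2 + x ^ 2) ^ (r - 1) * Real.exp ((L - (2 + x ^ 2)) / 2 * (r - 1)) := by
          rw [Real.mul_rpow hΛ.le (Real.exp_pos _).le, ← Real.exp_mul]
      _ ≤ (2 + x ^ 2) ^ (r - 1) * Real.exp y := by
          have h1 : (L - (2 + x ^ 2)) / 2 * (r - 1) ≤ y := by
            rw [hy]
            have c1 : (L - (2 + x ^ 2)) / 2 * (r - 1) ≤ (1311 / 10000 * b ^ 3) / 2 * (r - 1) :=
              mul_le_mul_of_nonneg_right (by linarith) (by linarith)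
            have c2 : 0 < r * b ^ 3 := by positivity
            have c3 : (1311 / 10000 * b ^ 3) / 2 * (r - 1) =
                1311 / 20000 * (r * b ^ 3) - 1311 / 20000 * b ^ 3 := by ring
            have c4 : 7 / 100 * r * b ^ 3 = 7 / 100 * (r * b ^ 3) := by ring
            rw [c4]
            linarith
          have h2 := Real.exp_le_exp.mpr h1
          exact mul_le_mul_of_nonneg_left h2 (Real.rpow_nonneg hΛ.le _)
  have hLp : 0 < L ^ (r - 1) := Real.rpow_pos_of_pos hL _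
  have hΛp : 0 < (2 + x ^ 2) ^ (r - 1) := Real.rpow_pos_of_pos hΛ _
  have l3 : L ^ (r - 1) * (1 - y) ≤ (2 + x ^ 2) ^ (r - 1) := by
    have h1 := Real.add_one_le_exp (-y)
    have h2 : Real.exp y * Real.exp (-y) = 1 := by
      rw [← Real.exp_add]
      simp
    have h3 : Real.exp y * (1 - y) ≤ 1 := by
      have := mul_le_mul_of_nonneg_left (by linarith : 1 - y ≤ Real.exp (-y)) (Real.exp_pos y).le
      linarith
    have h4 : 0 ≤ 1 - y := by linarith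
    calc L ^ (r - 1) * (1 - y) ≤ ((2 + x ^ 2) ^ (r - 1) * Real.exp y) * (1 - y) :=
          mul_le_mul_of_nonneg_right l2 h4
      _ = (2 + x ^ 2) ^ (r - 1) * (Real.exp y * (1 - y)) := by ring
      _ ≤ (2 + x ^ 2) ^ (r - 1) * 1 := mul_le_mul_of_nonneg_left h3 hΛp.le
      _ = (2 + x ^ 2) ^ (r - 1) := mul_one _
  have hLr : L ^ r = L ^ (r - 1) * L := by
    have : r = (r - 1) + 1 := by ring
    conv_lhs => rw [this]
    rw [Real.rpow_add_one hL.ne']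
  have hcmp : x ^ 2 - b ^ 3 / 5 ≤ (1 - y) * (x ^ 2 - b ^ 3 / 6) := by
    have h1 : y * x ^ 2 ≤ b ^ 3 / 30 := by
      rw [hx]
      have c1 : y * (b / 2) ^ 2 ≤ (1 / 100 * b ^ 2) * (b / 2) ^ 2 :=
        mul_le_mul_of_nonneg_right hy1 (by positivity)
      have c2 : (1 / 100 * b ^ 2) * (b / 2) ^ 2 = 1 / 400 * (b * b ^ 3) := by ring
      have c3 : b * b ^ 3 ≤ 1 / 100 * b ^ 3 := mul_le_mul_of_nonneg_right hb1 hb30.le
      linarith
    have h2 : 0 ≤ y * (b ^ 3 / 6) := by positivity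
    have e : (1 - y) * (x ^ 2 - b ^ 3 / 6) = x ^ 2 - b ^ 3 / 6 - y * x ^ 2 + y * (b ^ 3 / 6) := by
      ring
    rw [e]
    linarith
  have hpos : 0 ≤ x ^ 2 - b ^ 3 / 6 := by
    rw [hx]
    have h := mul_le_mul_of_nonneg_left hb1 (sq_nonneg b)
    have e1 : b ^ 2 * b = b ^ 3 := by ring
    have e2 : (b / 2) ^ 2 = 1 / 4 * b ^ 2 := by ring
    rw [e2]
    linarith [sq_nonneg b]
  calc L ^ r * W = L ^ (r - 1) * (L * W) := by rw [hLr]; ring
    _ ≤ L ^ (r - 1) * ((1 - y) * (x ^ 2 - b ^ 3 / 6)) :=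
        mul_le_mul_of_nonneg_left (hW.trans hcmp) hLp.le
    _ = (L ^ (r - 1) * (1 - y)) * (x ^ 2 - b ^ 3 / 6) := by ring
    _ ≤ (2 + x ^ 2) ^ (r - 1) * (x ^ 2 - b ^ 3 / 6) := mul_le_mul_of_nonneg_right l3 hpos

theorem not_monotonic_one {p : ℝ} (hp : 0 < p) (hp3 : p < 1 / 3) : ¬ Monotonic p 1 := by
  intro hm
  obtain ⟨r, hr⟩ : ∃ r : ℝ, r = 1 / p := ⟨_, rfl⟩
  have hr3 : 3 < r := by
    rw [hr, lt_div_iff₀ hp]
    linarith
  obtain ⟨b, hb, hbe, hbs⟩ := exists_small (c := 1 / 24)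
    (e := min (1 / 100) (1 / (10 * r))) hr3 (by positivity) (lt_min (by norm_num) (by positivity))
  have hb1 : b ≤ 1 / 100 := hbe.trans (min_le_left _ _)
  have hbr : 10 * (r * b) ≤ 1 := by
    have h1 := hbe.trans (min_le_right _ _)
    rw [le_div_iff₀ (by positivity)] at h1
    linarith
  obtain ⟨x, hx⟩ : ∃ x : ℝ, x = b / 2 := ⟨_, rfl⟩
  have hx0 : 0 < x := by rw [hx]; positivity
  have hx1 : x ≤ 1 / 200 := by linarith
  have hb30 : 0 < b ^ 3 := by positivity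
  have hb3 : b ^ 3 ≤ 1 / 2 := by
    have : b ^ 3 ≤ (1 / 100) ^ 3 := pow_le_pow_left₀ hb.le hb1 3
    norm_num at this
    linarith
  have hpsd : (mA b x + b • dk (b ^ 3)).PosSemidef :=
    (mA_psd hb.le).add (psd_smul (dk_psd hb30.le) hb.le)
  obtain ⟨U, d, hU⟩ := exists_cj hpsd.1
  obtain ⟨V, a, hV⟩ := exists_cj (mA_psd (x := x) hb.le).1
  have ha : ∀ i, 0 ≤ a i := fun i => eig_nonneg (hV ▸ mA_psd hb.le) i
  have hmain := one_lim hp hr hm (U := U) (V := V) (a := a) (d := d) ha hb hb30 (by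
      rw [← hU, ← hV]; rfl)
  have hls2 : (1 - x) ^ 2 ≤ 1 := by
    have h := pow_le_pow_left₀ (by linarith : 0 ≤ 1 - x) (by linarith : 1 - x ≤ 1) 2
    rwa [one_pow] at h
  have hls1 : b * (2 + (1 - x) ^ 2) < 2 + x ^ 2 := by
    have h := mul_le_mul hb1 (by linarith : 2 + (1 - x) ^ 2 ≤ 3) (by positivity)
      (by norm_num : (0 : ℝ) ≤ 1 / 100)
    linarith [sq_nonneg x]
  have hlow := (low_sum hb.le hls1 hls2 (by linarith : 0 < r) hV).2
  obtain ⟨hd, k, hk0, hk1, hk2⟩ := spec_C hb hx0.le (by linarith) hb30.le hb3 hU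
  obtain ⟨e0, e1, e2⟩ := eqs hU k _ rfl
  have hcol := col_one U k
  rw [Fin.sum_univ_three] at hcol
  have hbb : b * b ^ 3 ≤ 1 / 100 := by
    have h := mul_le_mul hb1 hb3 hb30.le (by norm_num)
    linarith
  have n0 : (d k - b) ≠ 0 := by
    have : 0 < d k - b := by linarith [sq_nonneg x]
    exact this.ne'
  have n1 : (d k - b * b ^ 3) ≠ 0 := by
    have : 0 < d k - b * b ^ 3 := by linarith [sq_nonneg x]
    exact this.ne'
  have n2 : d k ≠ 0 := by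
    have : 0 < d k := by linarith [sq_nonneg x]
    exact this.ne'
  have h0 : (d k - b)⁻¹ * (d k - b) = 1 := inv_mul_cancel₀ n0
  have h1 : (d k - b * b ^ 3)⁻¹ * (d k - b * b ^ 3) = 1 := inv_mul_cancel₀ n1
  have h2 : (d k)⁻¹ * (d k) = 1 := inv_mul_cancel₀ n2
  generalize (d k - b)⁻¹ = i0 at h0
  generalize (d k - b * b ^ 3)⁻¹ = i1 at h1
  generalize (d k)⁻¹ = i2 at h2
  obtain ⟨bP1, bP2, bQ1, bQ2, bi0, bi0', bi1, bi1'⟩ := one_bounds hb hb1 hx hk0 hk1 h0 h1 h2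
  obtain ⟨P, hP⟩ : ∃ P : ℝ, P = 1 - b * i0 - b * i1 - b * (1 - x) ^ 2 * i2 := ⟨_, rfl⟩
  obtain ⟨Q, hQ⟩ : ∃ Q : ℝ, Q = x * i0 - i1 + (1 - x) * i2 := ⟨_, rfl⟩
  rw [← hP] at bP1 bP2
  rw [← hQ] at bQ1 bQ2
  have hP0 : P ≠ 0 := by
    have : 0 < P := by linarith
    exact this.ne'
  have e1' : ((d k : ℂ) - (b : ℂ) * ((b ^ 3 : ℝ) : ℂ)) * (U : Mat 3) 1 k =
      ss x (fun i => (U : Mat 3) i k) - b * tt x (fun i => (U : Mat 3) i k) := e1
  obtain ⟨τ, w0, w1, w2, S, hS, hτ, hw0, hw1, hw2, hn0, hn1, hn2, hn, ht, hs⟩ :=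
    col_data (u := fun i => (U : Mat 3) i k) hcol e0 e1' e2 h0 h1 h2 hP hQ hP0
  have hτP : τ * P = Q := by rw [hτ]; field_simp
  obtain ⟨hL, hμ⟩ := col_real h0 h1 h2 hw0 hw1 hw2 hn ht hs
  obtain ⟨hμ1, hW⟩ := one_weight hb hb1 hx hk0 bP1 bP2 bQ1 bQ2 bi0 bi0' bi1 bi1' h2 hτP
    hw0 hw1 hw2 hS hn hL hμ
  have htop := top_one hb hb1 hr3 hbr hx hk0 hμ1 hW
  rw [← hn0, ← hn1, ← hn2] at htop
  have hv : ∑ j, (Complex.normSq ((U : Mat 3) 0 j) + Complex.normSq ((U : Mat 3) 1 j)) ≤ 2 := by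
    rw [Finset.sum_add_distrib, row_one, row_one]
    norm_num
  have hup := sum_split (by linarith : 0 ≤ r) (w := sw U)
    (v := fun j => Complex.normSq ((U : Mat 3) 0 j) + Complex.normSq ((U : Mat 3) 1 j))
    (W := 2) (B := 5 * b) hd hk2
    (fun j => by unfold sw; linarith [Complex.normSq_nonneg ((U : Mat 3) 2 j)])
    (fun j => add_nonneg (Complex.normSq_nonneg _) (Complex.normSq_nonneg _)) hv (by linarith)
    htop
  have hΛ : 1 ≤ (2 + x ^ 2) ^ (r - 1) := Real.one_le_rpow (by linarith [sq_nonneg x]) (by linarith)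
  have hΛx : 0 < (2 + x ^ 2) ^ (r - 1) * x ^ 2 := by positivity
  have hfin := hlow.trans hmain
  rcases le_max_iff.mp hfin with h6 | h6
  · have h7 := h6.trans hup
    have h8 : b ^ 3 / 6 ≤ (2 + x ^ 2) ^ (r - 1) * (b ^ 3 / 6) := by
      have := mul_le_mul_of_nonneg_right hΛ (by positivity : 0 ≤ b ^ 3 / 6)
      linarith
    have h9 : (2 + x ^ 2) ^ (r - 1) * (x ^ 2 - b ^ 3 / 6) =
        (2 + x ^ 2) ^ (r - 1) * x ^ 2 - (2 + x ^ 2) ^ (r - 1) * (b ^ 3 / 6) := by ring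
    rw [h9] at h7
    linarith
  · linarith

/-- failure of monotonicity for `0 < p < 1/3` at the two endpoints -/
theorem not_monotonic_endpoint {q : ℝ≥0∞} (hq : q = 1 ∨ q = ∞) {p : ℝ} (hp : 0 < p)
    (hp3 : p < 1 / 3) : ¬ Monotonic p q := by
  rcases hq with rfl | rfl
  · exact not_monotonic_one hp hp3
  · exact not_monotonic_top hp hp3

end Pool.Agent.Lib_helper61.PMN
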