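import Pool.Agent.Lib_helper61.PMN.Norms

/-!
# Power means at `q = 1` and `q = ∞`: perturbation of a diagonal matrix (MP_9bce2c_an)
-/

open Matrix
open scoped ENNReal BigOperators ComplexOrder

namespace Pool.Agent.Lib_helper61.PMN
open Pool.Agent.Lib_helper41.PM

lemma psd_smul {P : Mat 3} (hP : P.PosSemidef) {a : ℝ} (ha : 0 ≤ a) : (a • P).PosSemidef :=
  hP.smul ha

lemma psd_one_smul {a : ℝ} (ha : 0 ≤ a) : (a • (1 : Mat 3)).PosSemidef :=
  psd_smul PosSemidef.one ha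

lemma psd_diag {y : Fin 3 → ℝ} (hy : ∀ i, 0 ≤ y i) :
    (diagonal (fun i => (y i : ℂ)) : Mat 3).PosSemidef := by
  rw [diagonal_eq_cj]
  exact posSemidef_cj 1 y hy

/-- rank one matrix of a vector -/
noncomputable def rk (v : Fin 3 → ℂ) : Mat 3 := vecMulVec v (star v)

lemma rk_psd (v : Fin 3 → ℂ) : (rk v).PosSemidef := posSemidef_vecMulVec_self_star v

lemma rk_apply (v : Fin 3 → ℂ) (i j : Fin 3) : rk v i j = v i * star (v j) := by
  simp [rk, vecMulVec_apply]

lemma rk_le (v : Fin 3 → ℂ) {c K : ℝ} (hK : 0 < K)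
    (h : ∑ i, Complex.normSq (v i) ≤ c * K) : (c • (1 : Mat 3) - K⁻¹ • rk v).PosSemidef := by
  have h1 := trace_sub_posSemidef (rk_psd v)
  have h2 : ∑ i, (rk v i i).re = ∑ i, Complex.normSq (v i) := by
    refine Finset.sum_congr rfl fun i _ => ?_
    rw [rk_apply]
    simp only [RCLike.star_def, Complex.mul_conj, Complex.ofReal_re]
  rw [h2] at h1
  set T := ∑ i, Complex.normSq (v i) with hT
  have e : c • (1 : Mat 3) - K⁻¹ • rk v =
      (c - K⁻¹ * T) • (1 : Mat 3) + K⁻¹ • (T • (1 : Mat 3) - rk v) := by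
    module
  rw [e]
  refine (psd_one_smul ?_).add (psd_smul h1 (inv_nonneg.mpr hK.le))
  rw [sub_nonneg, inv_mul_le_iff₀ hK]
  linarith

lemma psd_compress {M : Mat 3} (hM : M.PosSemidef) (e : Fin 3 → ℝ) :
    ((diagonal (fun i => (e i : ℂ)) : Mat 3) * M * diagonal (fun i => (e i : ℂ))).PosSemidef := by
  have h := hM.conjTranspose_mul_mul_same (diagonal (fun i => (e i : ℂ)) : Mat 3)
  rw [diagonal_conjTranspose] at h
  have e1 : (star fun i => (e i : ℂ)) = fun i => (e i : ℂ) := by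
    ext i; simp
  rw [e1] at h
  exact h

lemma herm_re {X : Mat 3} (hX : X.IsHermitian) (i : Fin 3) : X i i = ((X i i).re : ℂ) := by
  have h := hX.apply i i
  rw [RCLike.star_def] at h
  exact (Complex.conj_eq_iff_re.mp h).symm

theorem psd_top {X : Mat 3} (hX : X.PosSemidef) {y : Fin 3 → ℝ} {R g K ε : ℝ}
    (hK : 0 < K) (hε : 0 ≤ ε) (hR0 : R = y 0 - ε * (X 0 0).re + K * ε ^ 2)
    (h1 : g / 2 ≤ R - y 1) (h2 : g / 2 ≤ R - y 2)
    (hKg : 2 * (Complex.normSq (X 1 0) + Complex.normSq (X 2 0)) ≤ g * K) :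
    (R • (1 : Mat 3) - diagonal (fun i => (y i : ℂ)) + ε • X).PosSemidef := by
  have e : R • (1 : Mat 3) - diagonal (fun i => (y i : ℂ)) + ε • X =
      K⁻¹ • rk ![((K * ε : ℝ) : ℂ), X 1 0, X 2 0] +
      (diagonal (fun i => ((![0, 1, 1] i : ℝ) : ℂ)) : Mat 3) *
        (diagonal (fun i => ((![0, R - y 1 - g / 2, R - y 2 - g / 2] i : ℝ) : ℂ)) + ε • X +
          ((g / 2) • (1 : Mat 3) - K⁻¹ • rk ![0, X 1 0, X 2 0])) *
        diagonal (fun i => ((![0, 1, 1] i : ℝ) : ℂ)) := by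
    have c1 : X 0 1 = star (X 1 0) := (hX.1.apply 0 1).symm
    have c2 : X 0 2 = star (X 2 0) := (hX.1.apply 0 2).symm
    have c0 := herm_re hX.1 0
    have hKc : (K : ℂ) ≠ 0 := by exact_mod_cast hK.ne'
    have hRc : (R : ℂ) = y 0 - ε * X 0 0 + K * ε ^ 2 := by
      rw [c0, hR0]; push_cast; ring
    ext i j
    rw [Matrix.add_apply, Matrix.add_apply, Matrix.sub_apply, mul_diagonal, diagonal_mul]
    fin_cases i <;> fin_cases j <;>
      simp [rk_apply, c1, c2] <;> field_simp <;>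
      first | ring1 | (rw [hRc]; ring1)
  rw [e]
  refine (psd_smul (rk_psd _) (inv_nonneg.mpr hK.le)).add (psd_compress ?_ _)
  refine ((psd_diag ?_).add (psd_smul hX hε)).add (rk_le _ hK ?_)
  · intro i
    fin_cases i
    · simp
    · simpa using h1
    · simpa using h2
  · simp only [Fin.sum_univ_three]
    simp
    linarith

theorem psd_one {X : Mat 3} (hX : X.PosSemidef) {y : Fin 3 → ℝ} {m K ε ν : ℝ}
    (hK : 0 < K) (hε : 0 ≤ ε) (hν : ν = ε * (X 2 2).re + K * ε ^ 2)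
    (h0 : m ≤ y 0) (h1 : m ≤ y 1) (h2 : 0 ≤ y 2)
    (hτ : 2 * (ε * ∑ i, (X i i).re) ≤ m)
    (hKm : 2 * (Complex.normSq (X 0 2) + Complex.normSq (X 1 2)) ≤ m * K) :
    (diagonal (fun i => (y i : ℂ)) - ε • X +
      diagonal (fun i => ((![0, 0, ν] i : ℝ) : ℂ)) : Mat 3).PosSemidef := by
  set τ := ∑ i, (X i i).re with hτ'
  have e : (diagonal (fun i => (y i : ℂ)) - ε • X +
      diagonal (fun i => ((![0, 0, ν] i : ℝ) : ℂ)) : Mat 3) =
      K⁻¹ • rk ![-X 0 2, -X 1 2, ((K * ε : ℝ) : ℂ)] +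
      (diagonal (fun i => ((![1, 1, 0] i : ℝ) : ℂ)) : Mat 3) *
        (diagonal (fun i => ((![y 0 - m, y 1 - m, 0] i : ℝ) : ℂ)) +
          ε • (τ • (1 : Mat 3) - X) +
          ((m - ε * τ) • (1 : Mat 3) - K⁻¹ • rk ![X 0 2, X 1 2, 0])) *
        diagonal (fun i => ((![1, 1, 0] i : ℝ) : ℂ)) +
      diagonal (fun i => ((![0, 0, y 2] i : ℝ) : ℂ)) := by
    have c1 : X 2 0 = star (X 0 2) := (hX.1.apply 2 0).symm
    have c2 : X 2 1 = star (X 1 2) := (hX.1.apply 2 1).symm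
    have c0 := herm_re hX.1 2
    have hKc : (K : ℂ) ≠ 0 := by exact_mod_cast hK.ne'
    have hνc : (ν : ℂ) = ε * X 2 2 + K * ε ^ 2 := by
      rw [c0, hν]; push_cast; ring
    ext i j
    rw [Matrix.add_apply, Matrix.sub_apply, Matrix.add_apply, Matrix.add_apply, mul_diagonal, diagonal_mul]
    fin_cases i <;> fin_cases j <;>
      simp [rk_apply, c1, c2] <;> field_simp <;>
      first | ring1 | (rw [hνc]; ring1)
  rw [e]
  refine ((psd_smul (rk_psd _) (inv_nonneg.mpr hK.le)).add (psd_compress ?_ _)).add (psd_diag ?_)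
  · refine ((psd_diag ?_).add (psd_smul (trace_sub_posSemidef hX) hε)).add (rk_le _ hK ?_)
    · intro i
      fin_cases i
      · simpa using h0
      · simpa using h1
      · simp
    · simp only [Fin.sum_univ_three]
      simp
      nlinarith
  · intro i
    fin_cases i
    · simp
    · simp
    · simpa using h2

end Pool.Agent.Lib_helper61.PMN
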