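import Pool.Agent.Lib_helper61.PMN.Psd

/-!
# Power means at `q = 1` and `q = ∞`: consequences of monotonicity near a diagonal `Y`
(MP_9bce2c_an)
-/

open Matrix Filter Topology
open scoped ENNReal BigOperators ComplexOrder

namespace Pool.Agent.Lib_helper61.PMN
open Pool.Agent.Lib_helper41.PM

lemma posDef_smul' {n : ℕ} {A : Mat n} (hA : A.PosDef) {a : ℝ} (ha : 0 < a) : (a • A).PosDef := by
  obtain ⟨U, c, rfl⟩ := exists_cj hA.1
  rw [smul_cj]
  exact posDef_cj U _ fun i => mul_pos ha (posDef_cj_pos U c hA i)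

theorem mono_use {n : ℕ} {q : ℝ≥0∞} {p r : ℝ} (hp : 0 < p) (hr : r = 1 / p) (hm : Monotonic p q)
    {A : Mat n} (hA : A.PosDef) {y : Fin n → ℝ} (hy : ∀ i, 0 < y i) {θ ε : ℝ} (hθ : 0 < θ)
    (hε : 0 < ε) : ∃ s : ℝ, 0 < s ∧ s ≤ 1 ∧
      schatten q ((s * ε) • mpow (A + θ • diagonal (fun i => (y i : ℂ))) r -
        diagonal (fun i => (((y i) ^ r : ℝ) : ℂ))) ≤
      schatten q (ε • mpow A r - diagonal (fun i => (((y i) ^ r : ℝ) : ℂ))) := by
  have hr0 : 0 < r := by rw [hr]; positivity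
  have hrp : r * p = 1 := by rw [hr]; field_simp
  set X : Mat n := ε • mpow A r with hX
  set Y : Mat n := diagonal (fun i => (((y i) ^ r : ℝ) : ℂ)) with hY
  have hXp : X.PosDef := posDef_smul' (mpow_posDef' hA r) hε
  have hYp : Y.PosDef := by
    rw [hY, diagonal_eq_cj]
    exact posDef_cj 1 _ fun i => Real.rpow_pos_of_pos (hy i) r
  have e1 : mpow X p = (ε ^ p) • A := by
    rw [hX, mpow_smul_pos (mpow_posDef' hA r) hε.le, mpow_mpow' hA hrp]
  have e2 : mpow Y p = diagonal (fun i => (y i : ℂ)) := by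
    rw [hY, mpow_diagonal]
    congr 1
    ext i
    rw [← Real.rpow_mul (hy i).le, hrp, Real.rpow_one]
  have hεp : 0 < ε ^ p := Real.rpow_pos_of_pos hε p
  have hden : 0 < 1 + ε ^ p * θ := by positivity
  obtain ⟨t, ht⟩ : ∃ t : ℝ, t = 1 / (1 + ε ^ p * θ) := ⟨_, rfl⟩
  have ht0 : 0 < t := by rw [ht]; positivity
  have ht1 : t ≤ 1 := by
    rw [ht, div_le_one hden]
    nlinarith [mul_pos hεp hθ]
  have h1t : 1 - t = t * ε ^ p * θ := by
    rw [ht]
    field_simp
    ring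
  have hD : (diagonal (fun i => (y i : ℂ)) : Mat n).PosDef := by
    rw [diagonal_eq_cj]
    exact posDef_cj 1 _ hy
  have hC : (A + θ • diagonal (fun i => (y i : ℂ))).PosDef := hA.add (posDef_smul' hD hθ)
  have e3 : mean p t X Y = (t ^ r * ε) • mpow (A + θ • diagonal (fun i => (y i : ℂ))) r := by
    unfold mean
    rw [e1, e2, h1t]
    have : t • (ε ^ p) • A + (t * ε ^ p * θ) • diagonal (fun i => (y i : ℂ)) =
        (t * ε ^ p) • (A + θ • diagonal (fun i => (y i : ℂ))) := by module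
    rw [this, mpow_smul_pos hC (by positivity), ← hr]
    congr 1
    rw [Real.mul_rpow ht0.le hεp.le, ← Real.rpow_mul hε.le, mul_comm p r, hrp, Real.rpow_one]
  have h := hm n X Y hXp hYp (a := t) (b := 1) ⟨ht0.le, ht1⟩ ⟨zero_le_one, le_rfl⟩ ht1
  simp only [mean_one hp.ne' hXp] at h
  rw [e3] at h
  exact ⟨t ^ r, Real.rpow_pos_of_pos ht0 r, Real.rpow_le_one ht0.le ht1 hr0.le, h⟩

lemma le_zero_of_small {a K e : ℝ} (hK : 0 < K) (he : 0 < e)
    (h : ∀ ε, 0 < ε → ε ≤ e → a ≤ K * ε) : a ≤ 0 := by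
  by_contra hcon
  push Not at hcon
  have h1 := h (min e (a / (2 * K))) (lt_min he (by positivity)) (min_le_left _ _)
  have h2 : K * min e (a / (2 * K)) ≤ K * (a / (2 * K)) :=
    mul_le_mul_of_nonneg_left (min_le_right _ _) hK.le
  have h3 : K * (a / (2 * K)) = a / 2 := by field_simp
  linarith

lemma diag_re {n : ℕ} (y : Fin n → ℝ) (i : Fin n) :
    ((diagonal (fun i => (y i : ℂ)) : Mat n) i i).re = y i := by
  simp

lemma smul_re {n : ℕ} (a : ℝ) (M : Mat n) (i : Fin n) : ((a • M) i i).re = a * (M i i).re := by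
  simp

lemma diag_herm {n : ℕ} (y : Fin n → ℝ) : (diagonal (fun i => (y i : ℂ)) : Mat n).IsHermitian := by
  rw [diagonal_eq_cj]
  exact cj_isHermitian 1 y

theorem red_top {p r : ℝ} (hp : 0 < p) (hr : r = 1 / p) (hm : Monotonic p ∞)
    {A : Mat 3} (hA : A.PosDef) {y : Fin 3 → ℝ} (hy : ∀ i, 0 < y i)
    (h1 : y 1 < y 0) (h2 : y 2 < y 0) {θ : ℝ} (hθ : 0 < θ) :
    (mpow A r 0 0).re ≤ (mpow (A + θ • diagonal (fun i => (y i : ℂ))) r 0 0).re := by
  have hr0 : 0 < r := by rw [hr]; positivity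
  have hD : (diagonal (fun i => (y i : ℂ)) : Mat 3).PosDef := by
    rw [diagonal_eq_cj]
    exact posDef_cj 1 _ hy
  have hXp : (mpow A r).PosSemidef := (mpow_posDef' hA r).posSemidef
  have hCp : (mpow (A + θ • diagonal (fun i => (y i : ℂ))) r).PosSemidef :=
    (mpow_posDef' (hA.add (posDef_smul' hD hθ)) r).posSemidef
  have hmu := fun ε (hε : 0 < ε) => mono_use hp hr hm hA hy hθ (ε := ε) hε
  generalize mpow A r = X at hXp hmu ⊢
  generalize mpow (A + θ • diagonal (fun i => (y i : ℂ))) r = C at hCp hmu ⊢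
  have k1 : y 1 ^ r < y 0 ^ r := Real.rpow_lt_rpow (hy 1).le h1 hr0
  have k2 : y 2 ^ r < y 0 ^ r := Real.rpow_lt_rpow (hy 2).le h2 hr0
  obtain ⟨w, hw⟩ : ∃ w : Fin 3 → ℝ, w = fun i => y i ^ r := ⟨_, rfl⟩
  have hw0 : ∀ i, 0 < w i := fun i => by rw [hw]; exact Real.rpow_pos_of_pos (hy i) r
  have hw1 : w 1 < w 0 := by rw [hw]; exact k1
  have hw2 : w 2 < w 0 := by rw [hw]; exact k2
  have hmu' : ∀ ε : ℝ, 0 < ε → ∃ s : ℝ, 0 < s ∧ s ≤ 1 ∧
      schatten ∞ ((s * ε) • C - diagonal (fun i => (w i : ℂ))) ≤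
      schatten ∞ (ε • X - diagonal (fun i => (w i : ℂ))) := by
    intro ε hε
    have := hmu ε hε
    rw [hw]
    exact this
  clear hmu
  obtain ⟨g, hg, g1, g2⟩ : ∃ g : ℝ, 0 < g ∧ g ≤ w 0 - w 1 ∧ g ≤ w 0 - w 2 :=
    ⟨min _ _, lt_min (sub_pos.2 hw1) (sub_pos.2 hw2), min_le_left _ _, min_le_right _ _⟩
  have hτ0 : (X 0 0).re ≤ ∑ i, (X i i).re := diag_le_trace hXp 0
  have hx0 : 0 ≤ (X 0 0).re := diag_nonneg' hXp 0
  have hc0 : 0 ≤ (C 0 0).re := diag_nonneg' hCp 0
  have htr := trace_sub_posSemidef hXp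
  set τ := ∑ i, (X i i).re with hτ
  have hτn : 0 ≤ τ := hx0.trans hτ0
  obtain ⟨K, hK, hKg⟩ : ∃ K : ℝ, 0 < K ∧
      2 * (Complex.normSq (X 1 0) + Complex.normSq (X 2 0)) ≤ g * K := by
    have n1 := Complex.normSq_nonneg (X 1 0)
    have n2 := Complex.normSq_nonneg (X 2 0)
    refine ⟨2 * (Complex.normSq (X 1 0) + Complex.normSq (X 2 0)) / g + 1, by positivity, ?_⟩
    have : g * (2 * (Complex.normSq (X 1 0) + Complex.normSq (X 2 0)) / g + 1) =
      2 * (Complex.normSq (X 1 0) + Complex.normSq (X 2 0)) + g := by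
      field_simp
    rw [this]
    linarith
  have key : ∀ ε : ℝ, 0 < ε → ε ≤ min (g / 2) (w 0 / 2) / (τ + 1) →
      (X 0 0).re - (C 0 0).re ≤ K * ε := by
    intro ε hε hε2
    rw [le_div_iff₀ (by linarith)] at hε2
    have hε3 : ε * τ ≤ g / 2 := by
      have := hε2.trans (min_le_left _ _)
      nlinarith
    have hε4 : ε * τ ≤ w 0 / 2 := by
      have := hε2.trans (min_le_right _ _)
      nlinarith
    have hε5 : ε * (X 0 0).re ≤ ε * τ := mul_le_mul_of_nonneg_left hτ0 hε.le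
    have hKε : 0 < K * ε ^ 2 := by positivity
    have h00 := hw0 0
    obtain ⟨s, hs0, hs1, hs⟩ := hmu' ε hε
    obtain ⟨R, hR⟩ : ∃ R : ℝ, R = w 0 - ε * (X 0 0).re + K * ε ^ 2 := ⟨_, rfl⟩
    have P1 := psd_top hXp hK hε.le hR (g := g) (by linarith) (by linarith) hKg
    have up : schatten ∞ (ε • X - diagonal (fun i => (w i : ℂ))) ≤ R := by
      refine schatten_top_le ((isHermitian_smul hXp.1 ε).sub (diag_herm w)) (by linarith) ?_ ?_
      · have e : R • (1 : Mat 3) - (ε • X - diagonal (fun i => (w i : ℂ))) =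
            (R - ε * τ) • (1 : Mat 3) + ε • (τ • (1 : Mat 3) - X) +
              diagonal (fun i => (w i : ℂ)) := by module
        rw [e]
        exact ((psd_one_smul (by linarith)).add (psd_smul htr hε.le)).add
          (psd_diag fun i => (hw0 i).le)
      · have e : R • (1 : Mat 3) + (ε • X - diagonal (fun i => (w i : ℂ))) =
            R • (1 : Mat 3) - diagonal (fun i => (w i : ℂ)) + ε • X := by abel
        rw [e]
        exact P1
    have low := abs_diag_le_schatten_top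
      ((isHermitian_smul hCp.1 (s * ε)).sub (diag_herm w)) 0
    rw [Matrix.sub_apply, Complex.sub_re, smul_re, diag_re] at low
    have h3 := (neg_le_abs (s * ε * (C 0 0).re - w 0)).trans (low.trans (hs.trans up))
    have h4 : s * ε * (C 0 0).re ≤ ε * (C 0 0).re := by
      have : s * (ε * (C 0 0).re) ≤ 1 * (ε * (C 0 0).re) :=
        mul_le_mul_of_nonneg_right hs1 (by positivity)
      linarith
    have h5 : ε * ((X 0 0).re - (C 0 0).re) ≤ ε * (K * ε) := by
      rw [hR] at h3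
      nlinarith
    exact le_of_mul_le_mul_left h5 hε
  have h0 := hw0 0
  have := le_zero_of_small hK (div_pos (lt_min (by linarith) (by linarith)) (by linarith)) key
  linarith

/-- the signed trace `M₀₀ + M₁₁ - M₂₂` -/
noncomputable def st (M : Mat 3) : ℝ := (M 0 0).re + (M 1 1).re - (M 2 2).re

theorem red_one {p r : ℝ} (hp : 0 < p) (hr : r = 1 / p) (hm : Monotonic p 1)
    {A : Mat 3} (hA : A.PosDef) {y : Fin 3 → ℝ} (hy : ∀ i, 0 < y i)
    {θ m ε K : ℝ} (hθ : 0 < θ) (h0 : m ≤ y 0 ^ r) (h1 : m ≤ y 1 ^ r) (hε : 0 < ε) (hK : 0 < K)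
    (hτ : 2 * (ε * ∑ i, (mpow A r i i).re) ≤ m)
    (hKm : 2 * (Complex.normSq (mpow A r 0 2) + Complex.normSq (mpow A r 1 2)) ≤ m * K) :
    ε * (st (mpow A r) - max (st (mpow (A + θ • diagonal (fun i => (y i : ℂ))) r)) 0) ≤
      2 * y 2 ^ r + 2 * K * ε ^ 2 := by
  have hr0 : 0 < r := by rw [hr]; positivity
  have hD : (diagonal (fun i => (y i : ℂ)) : Mat 3).PosDef := by
    rw [diagonal_eq_cj]
    exact posDef_cj 1 _ hy
  have hXp : (mpow A r).PosSemidef := (mpow_posDef' hA r).posSemidef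
  have hCp : (mpow (A + θ • diagonal (fun i => (y i : ℂ))) r).PosSemidef :=
    (mpow_posDef' (hA.add (posDef_smul' hD hθ)) r).posSemidef
  obtain ⟨s, hs0, hs1, hs⟩ := mono_use hp hr hm hA hy hθ (ε := ε) hε
  generalize mpow A r = X at hXp hs hτ hKm ⊢
  generalize mpow (A + θ • diagonal (fun i => (y i : ℂ))) r = C at hCp hs ⊢
  obtain ⟨w, hw⟩ : ∃ w : Fin 3 → ℝ, w = fun i => y i ^ r := ⟨_, rfl⟩
  have hw0 : ∀ i, 0 < w i := fun i => by rw [hw]; exact Real.rpow_pos_of_pos (hy i) r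
  have e0 : y 0 ^ r = w 0 := by rw [hw]
  have e1 : y 1 ^ r = w 1 := by rw [hw]
  have e2 : y 2 ^ r = w 2 := by rw [hw]
  rw [e0] at h0
  rw [e1] at h1
  rw [e2]
  have hs' : schatten 1 ((s * ε) • C - diagonal (fun i => (w i : ℂ))) ≤
      schatten 1 (ε • X - diagonal (fun i => (w i : ℂ))) := by
    rw [hw]
    exact hs
  clear hs
  have hx2 : 0 ≤ (X 2 2).re := diag_nonneg' hXp 2
  obtain ⟨ν, hν⟩ : ∃ ν : ℝ, ν = ε * (X 2 2).re + K * ε ^ 2 := ⟨_, rfl⟩
  have hν0 : 0 ≤ ν := by rw [hν]; positivity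
  have P1 := psd_one hXp hK hε.le hν h0 h1 (hw0 2).le hτ hKm
  have hN : (diagonal (fun i => ((![0, 0, ν] i : ℝ) : ℂ)) : Mat 3).PosSemidef := by
    apply psd_diag
    intro i
    fin_cases i
    · simp
    · simp
    · simpa using hν0
  have up : schatten 1 (ε • X - diagonal (fun i => (w i : ℂ))) ≤
      w 0 + w 1 + w 2 - ε * st X + 2 * K * ε ^ 2 := by
    have e : ε • X - diagonal (fun i => (w i : ℂ)) =
        (diagonal (fun i => ((![0, 0, ν] i : ℝ) : ℂ)) : Mat 3) -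
          (diagonal (fun i => (w i : ℂ)) - ε • X +
            diagonal (fun i => ((![0, 0, ν] i : ℝ) : ℂ))) := by abel
    rw [e]
    refine (schatten_sub_le le_rfl hN.1 P1.1).trans ?_
    rw [schatten_one_posSemidef hN, schatten_one_posSemidef P1]
    simp only [Fin.sum_univ_three, Matrix.add_apply, Matrix.sub_apply, Complex.add_re,
      Complex.sub_re, smul_re, diag_re]
    simp only [Matrix.cons_val]
    unfold st
    rw [hν]
    linarith
  have low := sum_abs_diag_le_schatten_one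
    ((isHermitian_smul hCp.1 (s * ε)).sub (diag_herm w))
  simp only [Fin.sum_univ_three, Matrix.sub_apply, Complex.sub_re, smul_re, diag_re] at low
  have l0 := neg_le_abs (s * ε * (C 0 0).re - w 0)
  have l1 := neg_le_abs (s * ε * (C 1 1).re - w 1)
  have l2 := le_abs_self (s * ε * (C 2 2).re - w 2)
  have h4 : s * ε * st C ≤ ε * max (st C) 0 := by
    have a1 : st C ≤ max (st C) 0 := le_max_left _ _
    have a2 : 0 ≤ max (st C) 0 := le_max_right _ _
    have a3 : s * (ε * max (st C) 0) ≤ 1 * (ε * max (st C) 0) :=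
      mul_le_mul_of_nonneg_right hs1 (by positivity)
    have a4 : s * ε * st C ≤ s * ε * max (st C) 0 :=
      mul_le_mul_of_nonneg_left a1 (by positivity)
    linarith
  have h5 : s * ε * st C = s * ε * (C 0 0).re + s * ε * (C 1 1).re - s * ε * (C 2 2).re := by
    unfold st
    ring
  have h6 := low.trans (hs'.trans up)
  rw [mul_sub]
  linarith

end Pool.Agent.Lib_helper61.PMN
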