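import Pool.Agent.Lib_helper61.PMN.Lim

/-!
# Power means at `q = 1` and `q = ∞`: the matrices of the counterexample (MP_9bce2c_an)
-/

open Matrix Filter Topology
open scoped ENNReal BigOperators ComplexOrder

namespace Pool.Agent.Lib_helper61.PMN
open Pool.Agent.Lib_helper41.PM

/-- the vector `a = (1, -1, x - 1)` -/
noncomputable def va (x : ℝ) : Fin 3 → ℂ := ![1, -1, (x : ℂ) - 1]

/-- the vector `c = (x, 1, -1)` -/
noncomputable def vc (x : ℝ) : Fin 3 → ℂ := ![(x : ℂ), 1, -1]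

/-- the matrix `b a aᵀ + c cᵀ` -/
noncomputable def mA (b x : ℝ) : Mat 3 := b • rk (va x) + rk (vc x)

/-- the matrix `diag (1, κ, 0)` -/
noncomputable def dk (κ : ℝ) : Mat 3 := diagonal (fun i => ((![1, κ, 0] i : ℝ) : ℂ))

lemma mA_psd {b x : ℝ} (hb : 0 ≤ b) : (mA b x).PosSemidef :=
  (psd_smul (rk_psd _) hb).add (rk_psd _)

lemma dk_psd {κ : ℝ} (hκ : 0 ≤ κ) : (dk κ).PosSemidef := by
  apply psd_diag
  intro i
  fin_cases i
  · simp
  · simpa using hκ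
  · simp

/-- `a · u` -/
noncomputable def tt (x : ℝ) (u : Fin 3 → ℂ) : ℂ := u 0 - u 1 + ((x : ℂ) - 1) * u 2

/-- `c · u` -/
noncomputable def ss (x : ℝ) (u : Fin 3 → ℂ) : ℂ := x * u 0 + u 1 - u 2

lemma eqs {b x θ κ : ℝ} {U : unitaryGroup (Fin 3) ℂ} {d : Fin 3 → ℝ}
    (h : mA b x + θ • dk κ = cj U (fun i => (d i : ℂ))) (k : Fin 3) (u : Fin 3 → ℂ)
    (hu : u = fun i => (U : Mat 3) i k) :
    ((d k : ℂ) - θ) * u 0 = b * tt x u + x * ss x u ∧
    ((d k : ℂ) - θ * κ) * u 1 = ss x u - b * tt x u ∧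
    (d k : ℂ) * u 2 = b * (x - 1) * tt x u - ss x u := by
  have e := fun i => eigen_eq U d i k
  simp only [← h] at e
  have e0 := e 0
  have e1 := e 1
  have e2 := e 2
  subst hu
  simp [Fin.sum_univ_three, mA, dk, rk_apply, va, vc] at e0 e1 e2
  unfold tt ss
  refine ⟨?_, ?_, ?_⟩
  · linear_combination -e0
  · linear_combination -e1
  · linear_combination -e2

lemma mA_trace (b x θ κ : ℝ) : ∑ i, ((mA b x + θ • dk κ) i i).re =
    b * (2 + (1 - x) ^ 2) + (2 + x ^ 2) + θ * (1 + κ) := by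
  simp [Fin.sum_univ_three, mA, dk, rk_apply, va, vc]
  ring

/-- the largest eigenvalue is at least `2 + x²` -/
lemma exists_top {b x θ κ : ℝ} (hθ : 0 ≤ θ) (hκ : 0 ≤ κ) {U : unitaryGroup (Fin 3) ℂ}
    {d : Fin 3 → ℝ} (h : mA b x + θ • dk κ = cj U (fun i => (d i : ℂ))) :
    ∃ k, 2 + x ^ 2 ≤ d k := by
  obtain ⟨k, hk⟩ := Finite.exists_max d
  refine ⟨k, ?_⟩
  have hp : (d k • (1 : Mat 3) - (mA b x + θ • dk κ)).PosSemidef := by
    rw [h, smul_one_sub_cj]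
    exact posSemidef_cj U _ fun i => by linarith [hk i]
  have hq := hp.dotProduct_mulVec_nonneg (vc x)
  have h2 := (Complex.le_def.mp hq).1
  simp [dotProduct, mulVec, Fin.sum_univ_three, mA, dk, rk_apply, va, vc] at h2
  nlinarith [mul_nonneg hθ hκ, mul_nonneg hθ (sq_nonneg x), sq_nonneg x]

end Pool.Agent.Lib_helper61.PMN
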